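import Mathlib

/-!
# Means on bounded functions, and measures from means
-/

set_option autoImplicit false

namespace Pool.Agent.Lib.P3852H

open MeasureTheory Filter Topology
open scoped CompactlySupported

/-- Bounded real functions. -/
def Bd {G : Type} (f : G → ℝ) : Prop := ∃ C : ℝ, ∀ x, |f x| ≤ C

/-- An invariant mean on the bounded functions on `G`. -/
structure IsMean {G : Type} [Mul G] (M : (G → ℝ) → ℝ) : Prop where
  add : ∀ f g, Bd f → Bd g → M (fun x => f x + g x) = M f + M g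
  smul : ∀ (c : ℝ) f, Bd f → M (fun x => c * f x) = c * M f
  nonneg : ∀ f, Bd f → (∀ x, 0 ≤ f x) → 0 ≤ M f
  one : M (fun _ => 1) = 1
  inv : ∀ f (h : G), Bd f → M (fun x => f (h * x)) = M f

namespace IsMean

variable {G : Type} [Mul G] {M : (G → ℝ) → ℝ}

theorem const (hM : IsMean M) (c : ℝ) : M (fun _ => c) = c := by
  have h := hM.smul c (fun _ => 1) ⟨1, fun _ => by simp⟩
  simpa [hM.one] using h

theorem mono (hM : IsMean M) {f g : G → ℝ} (hf : Bd f) (hg : Bd g) (h : ∀ x, f x ≤ g x) :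
    M f ≤ M g := by
  obtain ⟨C, hC⟩ := hf
  have hnf : Bd fun x => (-1) * f x := ⟨C, fun x => by rw [abs_mul]; simpa using hC x⟩
  obtain ⟨D, hD⟩ := hg
  have hsum : Bd fun x => g x + (-1) * f x := ⟨D + C, fun x =>
    (abs_add_le _ _).trans (add_le_add (hD x) (by rw [abs_mul]; simpa using hC x))⟩
  have h1 := hM.nonneg (fun x => g x + (-1) * f x) hsum (fun x => by linarith [h x])
  rw [hM.add _ _ ⟨D, hD⟩ hnf, hM.smul _ _ ⟨C, hC⟩] at h1
  linarith

theorem abs_le (hM : IsMean M) {f : G → ℝ} {C : ℝ} (hC : ∀ x, |f x| ≤ C) : |M f| ≤ C := by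
  have hf : Bd f := ⟨C, hC⟩
  rw [_root_.abs_le]
  constructor
  · have h := hM.mono (f := fun _ => -C) ⟨|C|, fun _ => by rw [abs_neg]⟩ hf
      (fun x => (_root_.abs_le.1 (hC x)).1)
    rwa [hM.const] at h
  · have h := hM.mono (g := fun _ => C) hf ⟨|C|, fun _ => le_rfl⟩
      (fun x => (_root_.abs_le.1 (hC x)).2)
    rwa [hM.const] at h

end IsMean

/-- A positive normalised functional on the continuous functions of a compact space is given by a
probability measure. -/
theorem exists_measure {Ω : Type} [TopologicalSpace Ω] [CompactSpace Ω] [T2Space Ω]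
    [MeasurableSpace Ω] [BorelSpace Ω] (L : C(Ω, ℝ) →ₗ[ℝ] ℝ) (hpos : ∀ g : C(Ω, ℝ), 0 ≤ g → 0 ≤ L g)
    (h1 : L 1 = 1) :
    ∃ P : Measure Ω, IsProbabilityMeasure P ∧ ∀ g : C(Ω, ℝ), ∫ ω, g ω ∂P = L g := by
  let T : C_c(Ω, ℝ) →ₗ[ℝ] ℝ :=
    { toFun := fun f => L f.toContinuousMap
      map_add' := by
        intro f g
        rw [← map_add]
        congr 1
      map_smul' := by
        intro c f
        rw [RingHom.id_apply, ← map_smul]
        congr 1 }
  let Λ : C_c(Ω, ℝ) →ₚ[ℝ] ℝ := PositiveLinearMap.mk₀ T (by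
    intro f hf
    exact hpos _ (fun x => hf x))
  have hμ := RealRMK.integral_rieszMeasure Λ
  obtain ⟨μ, hμd⟩ : ∃ μ, μ = RealRMK.rieszMeasure Λ := ⟨_, rfl⟩
  have hreg : μ.Regular := by rw [hμd]; infer_instance
  rw [← hμd] at hμ
  have hint : ∀ g : C(Ω, ℝ), ∫ ω, g ω ∂μ = L g := by
    intro g
    exact hμ ⟨g, HasCompactSupport.of_compactSpace _⟩
  have hfin : IsFiniteMeasure μ := CompactSpace.isFiniteMeasure
  refine ⟨μ, ⟨?_⟩, hint⟩
  have h2 := hint 1
  rw [h1] at h2
  simp only [ContinuousMap.one_apply, integral_const, smul_eq_mul, mul_one] at h2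
  rw [Measure.real, ENNReal.toReal_eq_one_iff] at h2
  exact h2

end Pool.Agent.Lib.P3852H
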