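import Mathlib
import Pool.Agent.Lib.P3852H.Mean

/-!
# Existence of an invariant mean on a countable commutative group
-/

set_option autoImplicit false

namespace Pool.Agent.Lib.P3852H

open Filter Topology

namespace MeanExAux

/-- The limit along a fixed nonprincipal ultrafilter. -/
noncomputable def ul (u : ℕ → ℝ) : ℝ := limUnder (hyperfilter ℕ : Filter ℕ) u

lemma ul_tendsto {u : ℕ → ℝ} {C : ℝ} (h : ∀ n, |u n| ≤ C) :
    Tendsto u (hyperfilter ℕ : Filter ℕ) (𝓝 (ul u)) := by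
  obtain ⟨x, -, hx⟩ := (isCompact_Icc (a := -C) (b := C)).ultrafilter_le_nhds
    ((hyperfilter ℕ).map u) (by
      rw [le_principal_iff]
      exact mem_map.2 (univ_mem' fun n => abs_le.1 (h n)))
  exact tendsto_nhds_limUnder ⟨x, hx⟩

lemma ul_eq {u : ℕ → ℝ} {l : ℝ} (h : Tendsto u (hyperfilter ℕ : Filter ℕ) (𝓝 l)) : ul u = l :=
  h.limUnder_eq

lemma hyper_le : (hyperfilter ℕ : Filter ℕ) ≤ atTop := by
  rw [← Nat.cofinite_eq_atTop]
  exact hyperfilter_le_cofinite

variable {G : Type} [CommGroup G]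

/-- Cesàro averages along the powers of `g`. -/
noncomputable def ces (g : G) (f : G → ℝ) (x : G) (n : ℕ) : ℝ :=
  (1 / ((n : ℝ) + 1)) * ∑ j ∈ Finset.range (n + 1), f (g ^ j * x)

lemma ces_abs {f : G → ℝ} {C : ℝ} (hf : ∀ x, |f x| ≤ C) (g x : G) (n : ℕ) : |ces g f x n| ≤ C := by
  unfold ces
  have hn : (0 : ℝ) < (n : ℝ) + 1 := by positivity
  rw [abs_mul, abs_of_pos (by positivity : 0 < 1 / ((n : ℝ) + 1))]
  have h1 : |∑ j ∈ Finset.range (n + 1), f (g ^ j * x)| ≤ ((n : ℝ) + 1) * C := by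
    refine (Finset.abs_sum_le_sum_abs _ _).trans ((Finset.sum_le_sum fun j _ => hf _).trans ?_)
    rw [Finset.sum_const, Finset.card_range, nsmul_eq_mul]
    push_cast
    exact le_rfl
  calc 1 / ((n : ℝ) + 1) * |∑ j ∈ Finset.range (n + 1), f (g ^ j * x)|
      ≤ 1 / ((n : ℝ) + 1) * (((n : ℝ) + 1) * C) := by gcongr
    _ = C := by field_simp

/-- The mean along `g`. -/
noncomputable def mg (g : G) (f : G → ℝ) (x : G) : ℝ := ul (ces g f x)

lemma mg_tendsto {f : G → ℝ} {C : ℝ} (hf : ∀ x, |f x| ≤ C) (g x : G) :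
    Tendsto (ces g f x) (hyperfilter ℕ : Filter ℕ) (𝓝 (mg g f x)) := ul_tendsto (ces_abs hf g x)

lemma mg_abs {f : G → ℝ} {C : ℝ} (hf : ∀ x, |f x| ≤ C) (g x : G) : |mg g f x| ≤ C :=
  le_of_tendsto' (mg_tendsto hf g x).abs fun n => ces_abs hf g x n

lemma mg_add {f f' : G → ℝ} {C C' : ℝ} (hf : ∀ x, |f x| ≤ C) (hf' : ∀ x, |f' x| ≤ C') (g : G) :
    mg g (fun x => f x + f' x) = fun x => mg g f x + mg g f' x := by
  funext x
  refine ul_eq (((mg_tendsto hf g x).add (mg_tendsto hf' g x)).congr fun n => ?_)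
  unfold ces
  rw [Finset.sum_add_distrib, mul_add]

lemma mg_smul {f : G → ℝ} {C : ℝ} (hf : ∀ x, |f x| ≤ C) (c : ℝ) (g : G) :
    mg g (fun x => c * f x) = fun x => c * mg g f x := by
  funext x
  refine ul_eq (((mg_tendsto hf g x).const_mul c).congr fun n => ?_)
  unfold ces
  rw [← Finset.mul_sum]
  ring

lemma mg_nonneg {f : G → ℝ} {C : ℝ} (hf : ∀ x, |f x| ≤ C) (h0 : ∀ x, 0 ≤ f x) (g x : G) :
    0 ≤ mg g f x := by
  refine ge_of_tendsto' (mg_tendsto hf g x) fun n => ?_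
  unfold ces
  exact mul_nonneg (by positivity) (Finset.sum_nonneg fun j _ => h0 _)

lemma mg_one (g : G) : mg g (fun _ => (1 : ℝ)) = fun _ => 1 := by
  funext x
  refine ul_eq (tendsto_const_nhds.congr fun n => ?_)
  unfold ces
  rw [Finset.sum_const, Finset.card_range, nsmul_eq_mul]
  push_cast
  field_simp

lemma mg_trans (f : G → ℝ) (g h : G) : mg g (fun x => f (h * x)) = fun x => mg g f (h * x) := by
  funext x
  unfold mg
  congr 1
  funext n
  unfold ces
  congr 1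
  refine Finset.sum_congr rfl fun j _ => ?_
  rw [mul_left_comm]

lemma mg_self {f : G → ℝ} {C : ℝ} (hf : ∀ x, |f x| ≤ C) (g : G) :
    mg g (fun x => f (g * x)) = mg g f := by
  funext x
  refine ul_eq ?_
  have h1 : Tendsto (fun n : ℕ => (1 / ((n : ℝ) + 1)) * (f (g ^ (n + 1) * x) - f x))
      (hyperfilter ℕ : Filter ℕ) (𝓝 0) := by
    refine Tendsto.mono_left ?_ hyper_le
    rw [tendsto_zero_iff_abs_tendsto_zero]
    have h2 : Tendsto (fun n : ℕ => 1 / ((n : ℝ) + 1) * (2 * C)) atTop (𝓝 0) := by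
      have := tendsto_one_div_add_atTop_nhds_zero_nat (𝕜 := ℝ)
      simpa using this.mul_const (2 * C)
    refine squeeze_zero (fun n => abs_nonneg _) (fun n => ?_) h2
    change |1 / ((n : ℝ) + 1) * (f (g ^ (n + 1) * x) - f x)| ≤ _
    rw [abs_mul, abs_of_pos (by positivity : 0 < 1 / ((n : ℝ) + 1))]
    gcongr
    have a1 := abs_le.1 (hf (g ^ (n + 1) * x))
    have a2 := abs_le.1 (hf x)
    rw [abs_le]
    constructor <;> linarith [a1.1, a1.2, a2.1, a2.2]
  have h3 := (mg_tendsto hf g x).add h1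
  rw [add_zero] at h3
  refine h3.congr fun n => ?_
  unfold ces
  rw [← mul_add]
  congr 1
  have e1 : ∑ j ∈ Finset.range (n + 1), f (g * (g ^ j * x)) =
      ∑ j ∈ Finset.range (n + 1), f (g ^ (j + 1) * x) := by
    refine Finset.sum_congr rfl fun j _ => ?_
    rw [← mul_assoc, ← pow_succ']
  rw [e1, Finset.sum_range_succ (fun j => f (g ^ (j + 1) * x)),
    Finset.sum_range_succ' (fun j => f (g ^ j * x))]
  rw [pow_zero, one_mul]
  ring

/-- Composition of the means along `k 0, …, k (n - 1)`. -/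
noncomputable def pp (k : ℕ → G) : ℕ → (G → ℝ) → (G → ℝ)
  | 0, f => f
  | n + 1, f => pp k n (mg (k n) f)

variable (k : ℕ → G)

lemma pp_abs (n : ℕ) : ∀ {f : G → ℝ} {C : ℝ}, (∀ x, |f x| ≤ C) → ∀ x, |pp k n f x| ≤ C := by
  induction n with
  | zero => intro f C hf x; exact hf x
  | succ n ih => intro f C hf x; exact ih (fun x => mg_abs hf _ x) x

lemma pp_add (n : ℕ) : ∀ {f f' : G → ℝ} {C C' : ℝ}, (∀ x, |f x| ≤ C) → (∀ x, |f' x| ≤ C') →
    pp k n (fun x => f x + f' x) = fun x => pp k n f x + pp k n f' x := by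
  induction n with
  | zero => intro f f' C C' hf hf'; rfl
  | succ n ih =>
    intro f f' C C' hf hf'
    change pp k n (mg (k n) fun x => f x + f' x) = _
    rw [mg_add hf hf']
    exact ih (fun x => mg_abs hf _ x) (fun x => mg_abs hf' _ x)

lemma pp_smul (n : ℕ) : ∀ {f : G → ℝ} {C : ℝ}, (∀ x, |f x| ≤ C) → ∀ c : ℝ,
    pp k n (fun x => c * f x) = fun x => c * pp k n f x := by
  induction n with
  | zero => intro f C hf c; rfl
  | succ n ih =>
    intro f C hf c
    change pp k n (mg (k n) fun x => c * f x) = _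
    rw [mg_smul hf]
    exact ih (fun x => mg_abs hf _ x) c

lemma pp_nonneg (n : ℕ) : ∀ {f : G → ℝ} {C : ℝ}, (∀ x, |f x| ≤ C) → (∀ x, 0 ≤ f x) →
    ∀ x, 0 ≤ pp k n f x := by
  induction n with
  | zero => intro f C hf h0 x; exact h0 x
  | succ n ih => intro f C hf h0 x; exact ih (fun x => mg_abs hf _ x) (fun x => mg_nonneg hf h0 _ x) x

lemma pp_one (n : ℕ) : pp k n (fun _ => (1 : ℝ)) = fun _ => 1 := by
  induction n with
  | zero => rfl
  | succ n ih =>
    change pp k n (mg (k n) fun _ => (1 : ℝ)) = _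
    rw [mg_one, ih]

lemma pp_inv (n : ℕ) : ∀ {f : G → ℝ} {C : ℝ}, (∀ x, |f x| ≤ C) → ∀ m < n,
    pp k n (fun x => f (k m * x)) = pp k n f := by
  induction n with
  | zero => intro f C hf m hm; exact absurd hm (Nat.not_lt_zero m)
  | succ n ih =>
    intro f C hf m hm
    change pp k n (mg (k n) fun x => f (k m * x)) = pp k n (mg (k n) f)
    rcases Nat.lt_succ_iff_lt_or_eq.1 hm with h | h
    · rw [mg_trans]
      exact ih (fun x => mg_abs hf _ x) m h
    · rw [h, mg_self hf]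

end MeanExAux

open MeanExAux in
/-- **Existence of invariant means.** -/
theorem exists_isMean (G : Type) [CommGroup G] [Countable G] :
    ∃ M : (G → ℝ) → ℝ, IsMean M := by
  obtain ⟨k, hk⟩ := exists_surjective_nat G
  have hT : ∀ {f : G → ℝ} {C : ℝ}, (∀ x, |f x| ≤ C) →
      Tendsto (fun n => pp k n f 1) (hyperfilter ℕ : Filter ℕ) (𝓝 (ul fun n => pp k n f 1)) :=
    fun hf => ul_tendsto fun n => pp_abs k n hf 1
  refine ⟨fun f => ul fun n => pp k n f 1, ?_, ?_, ?_, ?_, ?_⟩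
  · rintro f g ⟨C, hC⟩ ⟨D, hD⟩
    refine ul_eq (((hT hC).add (hT hD)).congr fun n => ?_)
    rw [pp_add k n hC hD]
  · rintro c f ⟨C, hC⟩
    refine ul_eq (((hT hC).const_mul c).congr fun n => ?_)
    rw [pp_smul k n hC]
  · rintro f ⟨C, hC⟩ h0
    exact ge_of_tendsto' (hT hC) fun n => pp_nonneg k n hC h0 1
  · refine ul_eq (tendsto_const_nhds.congr fun n => ?_)
    rw [pp_one]
  · rintro f h ⟨C, hC⟩
    obtain ⟨m, rfl⟩ := hk h
    refine ul_eq ((hT hC).congr' ?_)
    have hev : ∀ᶠ n in (hyperfilter ℕ : Filter ℕ), m < n := hyper_le (eventually_gt_atTop m)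
    filter_upwards [hev] with n hn'
    rw [pp_inv k n hC m hn']

end Pool.Agent.Lib.P3852H
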