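import Mathlib

/-!
# A countable subfield of `ℂ` stable under conjugation and roots
-/

set_option autoImplicit false

namespace Pool.Agent.Lib.P3852H

/-- Stable under conjugation and under extraction of roots. -/
structure GoodF (F : Subfield ℂ) : Prop where
  conj : ∀ x ∈ F, (starRingEnd ℂ) x ∈ F
  root : ∀ n : ℕ, 0 < n → ∀ y : ℂ, y ^ n ∈ F → y ∈ F

/-- **Existence of the field.** -/
theorem exists_field (r : ℝ) : ∃ F : Subfield ℂ, Countable F ∧ (r : ℂ) ∈ F ∧ GoodF F := by
  set K : Subfield ℂ := Subfield.closure {(r : ℂ)} with hK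
  have hKc : Countable K := by
    rw [← Cardinal.mk_le_aleph0_iff]
    refine (Subfield.cardinalMk_closure_le_max _).trans ?_
    exact max_le (Cardinal.mk_le_aleph0) le_rfl
  have hfix : ∀ x ∈ K, (starRingEnd ℂ) x = x := by
    have h : K ≤ RingHom.eqLocusField (starRingEnd ℂ) (RingHom.id ℂ) := by
      rw [hK, Subfield.closure_le]
      intro x hx
      rw [Set.mem_singleton_iff] at hx
      subst hx
      exact Complex.conj_ofReal r
    intro x hx
    exact h hx
  set F : Subfield ℂ := (algebraicClosure K ℂ).toSubfield with hF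
  have hmem : ∀ x : ℂ, x ∈ F ↔ IsAlgebraic K x := by
    intro x
    exact mem_algebraicClosure_iff
  refine ⟨F, ?_, ?_, ⟨?_, ?_⟩⟩
  · have h1 : Set.Countable {x : ℂ | IsAlgebraic K x} := Algebraic.countable K ℂ
    have h2 : (F : Set ℂ) = {x : ℂ | IsAlgebraic K x} := by
      ext x
      exact hmem x
    have h3 : Set.Countable (F : Set ℂ) := by rw [h2]; exact h1
    exact h3.to_subtype
  · rw [hmem]
    exact isAlgebraic_algebraMap (⟨(r : ℂ), Subfield.subset_closure rfl⟩ : K)
  · intro x hx
    rw [hmem] at hx ⊢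
    let σ : ℂ →ₐ[K] ℂ :=
      { starRingEnd ℂ with
        commutes' := fun k => hfix _ k.2 }
    exact hx.algHom σ
  · intro n hn y hy
    rw [hmem] at hy ⊢
    exact hy.of_pow hn

end Pool.Agent.Lib.P3852H
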