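import Mathlib
import Pool.Agent.Lib.P3852H.Mean
import Pool.Agent.Lib.P3852e9.Conf

/-!
# From a colouring to a stationary process on a countable field (§10.1)
-/

set_option autoImplicit false

namespace Pool.Agent.Lib.P3852H

open MeasureTheory Filter Topology Pool.Agent.Lib.P3852e9

/-- The elements of `F` of modulus one, as a subgroup of the units. -/
def Gam (F : Subfield ℂ) : Subgroup (F)ˣ where
  carrier := {u | ‖((u : F) : ℂ)‖ = 1}
  mul_mem' := by
    intro a b ha hb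
    change ‖(((a * b : (F)ˣ) : F) : ℂ)‖ = 1
    have ha' : ‖((a : F) : ℂ)‖ = 1 := ha
    have hb' : ‖((b : F) : ℂ)‖ = 1 := hb
    push_cast
    rw [norm_mul, ha', hb', one_mul]
  one_mem' := by
    change ‖(((1 : (F)ˣ) : F) : ℂ)‖ = 1
    simp
  inv_mem' := by
    intro a ha
    change ‖(((a⁻¹ : (F)ˣ) : F) : ℂ)‖ = 1
    have ha' : ‖((a : F) : ℂ)‖ = 1 := ha
    rw [Units.val_inv_eq_inv_val]
    push_cast
    rw [norm_inv, ha', inv_one]

/-- The value of an element of `Gam F` in `F`. -/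
def gv {F : Subfield ℂ} (u : Gam F) : F := ((u : (F)ˣ) : F)

lemma gv_norm {F : Subfield ℂ} (u : Gam F) : ‖((gv u : F) : ℂ)‖ = 1 := u.2

lemma gv_mul {F : Subfield ℂ} (u v : Gam F) : gv (u * v) = gv u * gv v := rfl

lemma exists_gv {F : Subfield ℂ} {x : F} (hx : ‖((x : F) : ℂ)‖ = 1) : ∃ u : Gam F, gv u = x := by
  have h0 : x ≠ 0 := by
    rintro rfl
    simp at hx
  exact ⟨⟨Units.mk0 x h0, hx⟩, rfl⟩

/-- Positive definite. -/
def PosDef (F : Subfield ℂ) (c : F → ℝ) : Prop :=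
  ∀ (s : Finset F) (a : F → ℝ), 0 ≤ ∑ x ∈ s, ∑ y ∈ s, a x * a y * c (x - y)

namespace ProcAux

variable {F : Subfield ℂ}

/-- The sample functions. -/
noncomputable def smp (f : ℂ → Bool) (u : Gam F) (v : Multiplicative F) : F → Bool := fun x =>
  f (((gv u * x + v.toAdd : F) : F) : ℂ)

/-- The functional. -/
noncomputable def LL (f : ℂ → Bool) (M1 : (Multiplicative F → ℝ) → ℝ) (M2 : (Gam F → ℝ) → ℝ)
    (g : (F → Bool) → ℝ) : ℝ := M2 fun u => M1 fun v => g (smp f u v)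

/-- signs -/
def sg (b : Bool) : ℝ := if b then 1 else -1

lemma sg_abs (b : Bool) : |sg b| = 1 := by cases b <;> simp [sg]

lemma sg_sq (b : Bool) : sg b * sg b = 1 := by cases b <;> simp [sg]

lemma bd_of_cont {g : (F → Bool) → ℝ} (hg : Continuous g) : ∃ C : ℝ, ∀ ω, |g ω| ≤ C := by
  obtain ⟨C, hC⟩ := isCompact_univ.exists_bound_of_continuousOn hg.continuousOn
  exact ⟨C, fun ω => hC ω (Set.mem_univ _)⟩

variable {f : ℂ → Bool} {M1 : (Multiplicative F → ℝ) → ℝ} {M2 : (Gam F → ℝ) → ℝ}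

lemma LL_add (h1 : IsMean M1) (h2 : IsMean M2) {g g' : (F → Bool) → ℝ} {C C' : ℝ}
    (hg : ∀ ω, |g ω| ≤ C) (hg' : ∀ ω, |g' ω| ≤ C') :
    LL f M1 M2 (fun ω => g ω + g' ω) = LL f M1 M2 g + LL f M1 M2 g' := by
  unfold LL
  have e : ∀ u : Gam F, M1 (fun v => g (smp f u v) + g' (smp f u v)) =
      M1 (fun v => g (smp f u v)) + M1 (fun v => g' (smp f u v)) := fun u =>
    h1.add _ _ ⟨C, fun v => hg _⟩ ⟨C', fun v => hg' _⟩
  simp only [e]
  exact h2.add _ _ ⟨C, fun u => h1.abs_le fun v => hg _⟩ ⟨C', fun u => h1.abs_le fun v => hg' _⟩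

lemma LL_smul (h1 : IsMean M1) (h2 : IsMean M2) {g : (F → Bool) → ℝ} {C : ℝ}
    (hg : ∀ ω, |g ω| ≤ C) (a : ℝ) :
    LL f M1 M2 (fun ω => a * g ω) = a * LL f M1 M2 g := by
  unfold LL
  have e : ∀ u : Gam F, M1 (fun v => a * g (smp f u v)) = a * M1 (fun v => g (smp f u v)) :=
    fun u => h1.smul _ _ ⟨C, fun v => hg _⟩
  simp only [e]
  exact h2.smul _ _ ⟨C, fun u => h1.abs_le fun v => hg _⟩

lemma LL_nonneg (h1 : IsMean M1) (h2 : IsMean M2) {g : (F → Bool) → ℝ} {C : ℝ}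
    (hg : ∀ ω, |g ω| ≤ C) (h0 : ∀ ω, 0 ≤ g ω) : 0 ≤ LL f M1 M2 g := by
  unfold LL
  exact h2.nonneg _ ⟨C, fun u => h1.abs_le fun v => hg _⟩ fun u =>
    h1.nonneg _ ⟨C, fun v => hg _⟩ fun v => h0 _

lemma LL_const (h1 : IsMean M1) (h2 : IsMean M2) (a : ℝ) : LL f M1 M2 (fun _ => a) = a := by
  unfold LL
  change (M2 fun _ => M1 fun _ => a) = a
  rw [h1.const, h2.const]

/-- translation invariance -/
lemma LL_trans (h1 : IsMean M1) {g : (F → Bool) → ℝ} {C : ℝ} (hg : ∀ ω, |g ω| ≤ C) (h : F) :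
    LL f M1 M2 (fun ω => g fun x => ω (x + h)) = LL f M1 M2 g := by
  unfold LL
  congr 1
  funext u
  rw [← h1.inv (fun v => g (smp f u v)) (Multiplicative.ofAdd (gv u * h)) ⟨C, fun v => hg _⟩]
  congr 1
  funext v
  change g (fun x => smp f u v (x + h)) = g (smp f u (Multiplicative.ofAdd (gv u * h) * v))
  congr 1
  funext x
  unfold smp
  congr 2
  rw [toAdd_mul, toAdd_ofAdd]
  ring

/-- rotation invariance -/
lemma LL_rot (h1 : IsMean M1) (h2 : IsMean M2) {g : (F → Bool) → ℝ} {C : ℝ}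
    (hg : ∀ ω, |g ω| ≤ C) (k : Gam F) :
    LL f M1 M2 (fun ω => g fun x => ω (gv k * x)) = LL f M1 M2 g := by
  unfold LL
  rw [← h2.inv (fun u => M1 fun v => g (smp f u v)) k ⟨C, fun u => h1.abs_le fun v => hg _⟩]
  congr 1
  funext u
  congr 1
  funext v
  change g (fun x => smp f u v (gv k * x)) = g (smp f (k * u) v)
  congr 1
  funext x
  unfold smp
  congr 2
  rw [gv_mul]
  ring

lemma cont_ev (x : F) : Continuous fun ω : F → Bool => sg (ω x) := by
  have h : Continuous sg := continuous_of_discreteTopology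
  exact h.comp (continuous_apply (A := fun _ : F => Bool) x)

lemma bd_ev (x y : F) (ω : F → Bool) : |sg (ω x) * sg (ω y)| ≤ 1 := by
  rw [abs_mul, sg_abs, sg_abs, one_mul]

end ProcAux

open ProcAux

/-- The coordinates. -/
noncomputable def XX (F : Subfield ℂ) (x : F) (ω : F → Bool) : ℝ := sg (ω x)

lemma XX_meas (F : Subfield ℂ) (x : F) : Measurable (XX F x) := by
  have h : Measurable sg := measurable_of_countable _
  exact h.comp (measurable_pi_apply (X := fun _ : F => Bool) x)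

lemma XX_abs (F : Subfield ℂ) (x : F) (ω : F → Bool) : |XX F x ω| ≤ 1 := (sg_abs _).le

/-- **§10.1.** -/
theorem exists_proc (F : Subfield ℂ) [Countable F] {M1 : (Multiplicative F → ℝ) → ℝ}
    {M2 : (Gam F → ℝ) → ℝ} (h1 : IsMean M1) (h2 : IsMean M2) (f : ℂ → Bool)
    (hω : cis (Real.pi / 3) ∈ F) :
    ∃ (P : Measure (F → Bool)) (c : F → ℝ), IsProbabilityMeasure P ∧
      (∀ x y : F, ∫ ω, XX F x ω * XX F y ω ∂P = c (x - y)) ∧
      (∀ x y : F, ‖(x : ℂ)‖ = ‖(y : ℂ)‖ → c x = c y) ∧ PosDef F c ∧ c 0 = 1 ∧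
      ∀ ρ : F, AvTri f ‖(ρ : ℂ)‖ ‖(ρ : ℂ)‖ ‖(ρ : ℂ)‖ → c ρ = -1 / 3 := by
  let L : C(F → Bool, ℝ) →ₗ[ℝ] ℝ :=
    { toFun := fun g => LL f M1 M2 g
      map_add' := by
        intro g g'
        obtain ⟨C, hC⟩ := bd_of_cont g.continuous
        obtain ⟨C', hC'⟩ := bd_of_cont g'.continuous
        exact LL_add h1 h2 hC hC'
      map_smul' := by
        intro a g
        obtain ⟨C, hC⟩ := bd_of_cont g.continuous
        exact LL_smul h1 h2 hC a }
  obtain ⟨P, hP, hPL⟩ := exists_measure L (by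
    intro g hg
    obtain ⟨C, hC⟩ := bd_of_cont g.continuous
    exact LL_nonneg h1 h2 hC fun ω => hg ω) (LL_const (f := f) h1 h2 1)
  have hcov : ∀ x y : F, ∫ ω, XX F x ω * XX F y ω ∂P =
      LL f M1 M2 (fun ω => sg (ω x) * sg (ω y)) := fun x y =>
    hPL ⟨fun ω => sg (ω x) * sg (ω y), (cont_ev x).mul (cont_ev y)⟩
  set c : F → ℝ := fun x => LL f M1 M2 (fun ω => sg (ω x) * sg (ω 0)) with hc
  have htr : ∀ x y : F, ∫ ω, XX F x ω * XX F y ω ∂P = c (x - y) := by
    intro x y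
    rw [hcov, hc]
    have := LL_trans (f := f) (M2 := M2) h1 (bd_ev (x - y) 0) y
    simp only [sub_add_cancel, zero_add] at this
    exact this
  have hrot : ∀ (k : Gam F) (x : F), c (gv k * x) = c x := by
    intro k x
    rw [hc]
    have := LL_rot (f := f) h1 h2 (bd_ev x 0) k
    simp only [mul_zero] at this
    exact this
  have hrad : ∀ x y : F, ‖(x : ℂ)‖ = ‖(y : ℂ)‖ → c x = c y := by
    intro x y hxy
    by_cases hy : y = 0
    · subst hy
      have hx : x = 0 := by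
        have : ‖(x : ℂ)‖ = 0 := by rw [hxy]; simp
        rw [norm_eq_zero] at this
        exact_mod_cast this
      rw [hx]
    · have hy0 : (y : ℂ) ≠ 0 := by exact_mod_cast hy
      have hn : ‖((x / y : F) : ℂ)‖ = 1 := by
        push_cast
        rw [norm_div, hxy, div_self (norm_ne_zero_iff.2 hy0)]
      obtain ⟨k, hk⟩ := exists_gv hn
      have := hrot k y
      rw [hk, div_mul_cancel₀ x hy] at this
      exact this
  refine ⟨P, c, hP, htr, hrad, ?_, ?_, ?_⟩
  · intro s a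
    have e1 : ∑ x ∈ s, ∑ y ∈ s, a x * a y * c (x - y) = ∫ ω, (∑ x ∈ s, a x * XX F x ω) ^ 2 ∂P := by
      have hint : ∀ x y : F, Integrable (fun ω => XX F x ω * XX F y ω) P := by
        intro x y
        refine Integrable.of_bound ((XX_meas F x).mul (XX_meas F y)).aestronglyMeasurable 1
          (ae_of_all _ fun ω => ?_)
        exact bd_ev x y ω
      have e2 : (fun ω => (∑ x ∈ s, a x * XX F x ω) ^ 2) = fun ω =>
          ∑ x ∈ s, ∑ y ∈ s, a x * a y * (XX F x ω * XX F y ω) := by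
        funext ω
        rw [sq, Finset.sum_mul_sum]
        refine Finset.sum_congr rfl fun x _ => Finset.sum_congr rfl fun y _ => ?_
        ring
      rw [e2, integral_finsetSum _ fun x _ => integrable_finsetSum _ fun y _ =>
        (hint x y).const_mul _]
      refine Finset.sum_congr rfl fun x _ => ?_
      rw [integral_finsetSum _ fun y _ => (hint x y).const_mul _]
      refine Finset.sum_congr rfl fun y _ => ?_
      rw [integral_const_mul, htr]
    rw [e1]
    exact integral_nonneg fun ω => sq_nonneg _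
  · rw [hc]
    simp only [sg_sq]
    exact LL_const h1 h2 1
  · intro ρ hav
    set w : F := ⟨cis (Real.pi / 3), hω⟩ with hw
    have hwn : ‖(w : ℂ)‖ = 1 := norm_cis _
    have hw1 : ‖(w : ℂ) - 1‖ = 1 := by
      have e : (w : ℂ) - 1 = cis (2 * Real.pi / 3) := by
        apply Complex.ext
        · change (cis (Real.pi / 3)).re - 1 = _
          rw [cis_re, cis_re, Real.cos_pi_div_three,
            show 2 * Real.pi / 3 = Real.pi - Real.pi / 3 by ring,
            Real.cos_pi_sub, Real.cos_pi_div_three]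
          norm_num
        · change (cis (Real.pi / 3)).im - 0 = _
          rw [cis_im, cis_im, show 2 * Real.pi / 3 = Real.pi - Real.pi / 3 by ring,
            Real.sin_pi_sub, sub_zero]
      rw [e, norm_cis]
    -- the three covariances
    have key : LL f M1 M2 (fun ω => (sg (ω ρ) * sg (ω 0) + sg (ω (w * ρ)) * sg (ω 0)) +
        sg (ω (w * ρ)) * sg (ω ρ)) = -1 := by
      have e : ∀ (u : Gam F) (v : Multiplicative F),
          ((sg (smp f u v ρ) * sg (smp f u v 0) + sg (smp f u v (w * ρ)) * sg (smp f u v 0)) +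
            sg (smp f u v (w * ρ)) * sg (smp f u v ρ)) = -1 := by
        intro u v
        have hu := gv_norm u
        have d1 : dist (((gv u * ρ + v.toAdd : F) : F) : ℂ) (((gv u * 0 + v.toAdd : F) : F) : ℂ) =
            ‖(ρ : ℂ)‖ := by
          rw [dist_eq_norm]
          push_cast
          rw [show ((gv u : F) : ℂ) * (ρ : ℂ) + ((v.toAdd : F) : ℂ) -
            (((gv u : F) : ℂ) * 0 + ((v.toAdd : F) : ℂ)) = ((gv u : F) : ℂ) * (ρ : ℂ) by ring,
            norm_mul, hu, one_mul]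
        have d2 : dist (((gv u * 0 + v.toAdd : F) : F) : ℂ) (((gv u * (w * ρ) + v.toAdd : F) : F) : ℂ) =
            ‖(ρ : ℂ)‖ := by
          rw [dist_eq_norm]
          push_cast
          rw [show ((gv u : F) : ℂ) * 0 + ((v.toAdd : F) : ℂ) -
            (((gv u : F) : ℂ) * ((w : ℂ) * (ρ : ℂ)) + ((v.toAdd : F) : ℂ)) =
            -(((gv u : F) : ℂ) * ((w : ℂ) * (ρ : ℂ))) by ring,
            norm_neg, norm_mul, norm_mul, hu, hwn, one_mul, one_mul]
        have d3 : dist (((gv u * ρ + v.toAdd : F) : F) : ℂ) (((gv u * (w * ρ) + v.toAdd : F) : F) : ℂ) =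
            ‖(ρ : ℂ)‖ := by
          rw [dist_comm, dist_eq_norm]
          push_cast
          rw [show ((gv u : F) : ℂ) * ((w : ℂ) * (ρ : ℂ)) + ((v.toAdd : F) : ℂ) -
            (((gv u : F) : ℂ) * (ρ : ℂ) + ((v.toAdd : F) : ℂ)) =
            ((gv u : F) : ℂ) * (((w : ℂ) - 1) * (ρ : ℂ)) by ring,
            norm_mul, norm_mul, hu, hw1, one_mul, one_mul]
        have hn := hav _ _ _ d1 d2 d3
        unfold smp
        revert hn
        generalize f (((gv u * ρ + v.toAdd : F) : F) : ℂ) = a1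
        generalize f (((gv u * 0 + v.toAdd : F) : F) : ℂ) = a2
        generalize f (((gv u * (w * ρ) + v.toAdd : F) : F) : ℂ) = a3
        cases a1 <;> cases a2 <;> cases a3 <;> simp [sg]
      have e' : LL f M1 M2 (fun ω => (sg (ω ρ) * sg (ω 0) + sg (ω (w * ρ)) * sg (ω 0)) +
        sg (ω (w * ρ)) * sg (ω ρ)) = LL f M1 M2 (fun _ => -1) := by
        unfold LL
        simp only [e]
      rw [e', LL_const h1 h2]
    have b12 : ∀ ω : F → Bool, |sg (ω ρ) * sg (ω 0) + sg (ω (w * ρ)) * sg (ω 0)| ≤ 1 + 1 :=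
      fun ω => (abs_add_le _ _).trans (add_le_add (bd_ev _ _ _) (bd_ev _ _ _))
    rw [LL_add h1 h2 b12 (bd_ev (w * ρ) ρ), LL_add h1 h2 (bd_ev ρ 0) (bd_ev (w * ρ) 0)] at key
    have k1 : LL f M1 M2 (fun ω => sg (ω ρ) * sg (ω 0)) = c ρ := rfl
    have k2 : LL f M1 M2 (fun ω => sg (ω (w * ρ)) * sg (ω 0)) = c ρ := by
      change c (w * ρ) = c ρ
      apply hrad
      push_cast
      rw [norm_mul, hwn, one_mul]
    have k3 : LL f M1 M2 (fun ω => sg (ω (w * ρ)) * sg (ω ρ)) = c ρ := by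
      rw [← hcov, htr]
      apply hrad
      push_cast
      rw [show (w : ℂ) * (ρ : ℂ) - (ρ : ℂ) = ((w : ℂ) - 1) * (ρ : ℂ) by ring, norm_mul, hw1, one_mul]
    rw [k1, k2, k3] at key
    linarith

end Pool.Agent.Lib.P3852H
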