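import Mathlib
import Pool.Agent.Lib.P3852C.Crum
import Pool.Agent.Lib.P3852H.Field
import Pool.Agent.Lib.P3852H.Process

/-!
# Crum's theorem without measurability, in the form needed for the assembly
-/

set_option autoImplicit false

namespace Pool.Agent.Lib.P3852H

/-- **Crum's theorem without measurability** (§9). -/
theorem crum {F : Subfield ℂ} [Countable F] (hF : GoodF F) {c : F → ℝ} (h : PosDef F c)
    (hrad : ∀ x y : F, ‖(x : ℂ)‖ = ‖(y : ℂ)‖ → c x = c y) :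
    ∃ c1 : F → ℝ, PosDef F c1 ∧ (∀ x y : F, ‖(x : ℂ)‖ = ‖(y : ℂ)‖ → c1 x = c1 y) ∧
      (∀ x : F, x ≠ 0 → c1 x = c x) ∧ c1 0 ≤ c 0 ∧
      ∀ ε > 0, ∃ δ > 0, ∀ x : F, ‖(x : ℂ)‖ < δ → |c1 x - c1 0| < ε := by
  have hG : P3852C.GoodField F := ⟨‹Countable F›, hF.conj, fun n y hn hy => hF.root n hn y hy⟩
  obtain ⟨c1, h1, h2, h3, h4, h5⟩ := P3852C.crum hG
    (c := c) ⟨fun x => hrad _ _ (by push_cast; rw [norm_neg]), h⟩ hrad
  refine ⟨c1, h1.pos, h2, h3, h4, fun ε hε => ?_⟩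
  obtain ⟨δ, hδ, hδ'⟩ := h5 (ε / 2) (by positivity)
  refine ⟨δ, hδ, fun x hx => ?_⟩
  have := hδ' x 0 (by simpa using hx)
  linarith

end Pool.Agent.Lib.P3852H
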