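import Mathlib
import Pool.Agent.Lib.P3852e9.Conf

/-!
# The triangle relations for a function with values in `[-1, 1]`

`Adm φ r`: `φ : ℂ → [-1, 1]` is measurable and satisfies the relation
`φ(x) φ(y) + φ(x) φ(z) + φ(y) φ(z) = -1` for almost every triangle `x, y, z` of every shape with sides
in `{1, r}`.
-/

set_option autoImplicit false

namespace Pool.Agent.Lib.P3852H

open MeasureTheory Pool.Agent.Lib.P3852e9

/-- The triangle relation of shape `(a, b)` for `φ`, at almost every position. -/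
def Rel (φ : ℂ → ℝ) (a b : ℂ) : Prop :=
  ∀ᵐ z : ℂ, ∀ᵐ t : ℝ, φ z * φ (z + a * cis t) + φ z * φ (z + b * cis t) +
    φ (z + a * cis t) * φ (z + b * cis t) = -1

/-- Admissible functions. -/
structure Adm (φ : ℂ → ℝ) (r : ℝ) : Prop where
  meas : Measurable φ
  bound : ∀ z, |φ z| ≤ 1
  rel : ∀ a b : ℂ, (‖a‖ = 1 ∨ ‖a‖ = r) → (‖b‖ = 1 ∨ ‖b‖ = r) → (‖a - b‖ = 1 ∨ ‖a - b‖ = r) →
    Rel φ a b

end Pool.Agent.Lib.P3852H
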