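import Mathlib
import Pool.Agent.Lib.P3852H.Rel
import Pool.Agent.Lib.P3852L.Ac

/-!
# From a process on a countable dense field to an admissible function (§10.2, §10.3)

`X x` (`x ∈ F`) are random variables bounded by 1 with `E X_x X_y = ct (x - y)` for `x ≠ y`, where `ct` is
continuous on the plane, and `ct = -1/3` on the circles of radius `1` and `r`. Then averages of `X` over
many points of `F` near `z` converge to a measurable process `φ(z)` with `E φ(z) φ(w) = ct (z - w)` for all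
`z, w`, and almost every sample function is admissible.
-/

set_option autoImplicit false

namespace Pool.Agent.Lib.P3852H

open MeasureTheory Filter Topology Set Pool.Agent.Lib.P3852e9

namespace PhiAux

variable {F : Subfield ℂ}

/-- The grid point. -/
noncomputable def q (hI : Complex.I ∈ F) (N : ℕ) (z : ℂ) : F :=
  (⌊(N : ℝ) * z.re⌋ : F) / (N : F) + (⌊(N : ℝ) * z.im⌋ : F) / (N : F) * ⟨Complex.I, hI⟩

/-- The small shifts. -/
noncomputable def sh (F : Subfield ℂ) (N j : ℕ) : F := ((j + 1 : ℕ) : F) / (N : F) ^ 2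

lemma q_coe (hI : Complex.I ∈ F) (N : ℕ) (z : ℂ) : ((q hI N z : F) : ℂ) =
    (⌊(N : ℝ) * z.re⌋ : ℂ) / (N : ℂ) + (⌊(N : ℝ) * z.im⌋ : ℂ) / (N : ℂ) * Complex.I := by
  unfold q
  push_cast
  rfl

lemma sh_coe (N j : ℕ) : ((sh F N j : F) : ℂ) = ((j : ℂ) + 1) / (N : ℂ) ^ 2 := by
  unfold sh
  push_cast
  rfl

lemma q_dist (hI : Complex.I ∈ F) {N : ℕ} (hN : 0 < N) (z : ℂ) :
    ‖((q hI N z : F) : ℂ) - z‖ ≤ 2 / N := by
  have hN' : (0 : ℝ) < N := by exact_mod_cast hN
  have hre : |(⌊(N : ℝ) * z.re⌋ : ℝ) / N - z.re| ≤ 1 / N := by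
    have h1 := Int.floor_le ((N : ℝ) * z.re)
    have h2 := Int.lt_floor_add_one ((N : ℝ) * z.re)
    have e : (⌊(N : ℝ) * z.re⌋ : ℝ) / N - z.re = ((⌊(N : ℝ) * z.re⌋ : ℝ) - N * z.re) / N := by
      field_simp
    rw [e, abs_div, abs_of_pos hN']
    gcongr
    rw [abs_le]
    constructor <;> linarith
  have him : |(⌊(N : ℝ) * z.im⌋ : ℝ) / N - z.im| ≤ 1 / N := by
    have h1 := Int.floor_le ((N : ℝ) * z.im)
    have h2 := Int.lt_floor_add_one ((N : ℝ) * z.im)
    have e : (⌊(N : ℝ) * z.im⌋ : ℝ) / N - z.im = ((⌊(N : ℝ) * z.im⌋ : ℝ) - N * z.im) / N := by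
      field_simp
    rw [e, abs_div, abs_of_pos hN']
    gcongr
    rw [abs_le]
    constructor <;> linarith
  have e1 : ((q hI N z : F) : ℂ) - z = (((⌊(N : ℝ) * z.re⌋ : ℝ) / N - z.re : ℝ) : ℂ) +
      (((⌊(N : ℝ) * z.im⌋ : ℝ) / N - z.im : ℝ) : ℂ) * Complex.I := by
    rw [q_coe]
    conv_lhs => rw [← Complex.re_add_im z]
    simp only [Complex.add_re, Complex.add_im, Complex.mul_re, Complex.mul_im, Complex.ofReal_re,
      Complex.ofReal_im, Complex.I_re, Complex.I_im, mul_zero, sub_zero, mul_one, add_zero,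
      zero_add]
    push_cast
    ring
  rw [e1]
  calc ‖(((⌊(N : ℝ) * z.re⌋ : ℝ) / N - z.re : ℝ) : ℂ) +
      (((⌊(N : ℝ) * z.im⌋ : ℝ) / N - z.im : ℝ) : ℂ) * Complex.I‖ ≤ _ + _ := norm_add_le _ _
    _ ≤ 1 / N + 1 / N := by
        rw [norm_mul, Complex.norm_I, mul_one, Complex.norm_real, Complex.norm_real]
        exact add_le_add hre him
    _ = 2 / N := by ring

lemma sh_norm {N j : ℕ} (hj : j < N) : ‖((sh F N j : F) : ℂ)‖ ≤ 1 / N := by
  have hN' : (0 : ℝ) < N := by exact_mod_cast (Nat.zero_le j).trans_lt hj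
  have hj' : (j : ℝ) + 1 ≤ N := by exact_mod_cast hj
  rw [sh_coe, norm_div, norm_pow, Complex.norm_natCast]
  have e : ‖(j : ℂ) + 1‖ = (j : ℝ) + 1 := by
    have : (j : ℂ) + 1 = (((j : ℝ) + 1 : ℝ) : ℂ) := by push_cast; rfl
    rw [this, Complex.norm_real, Real.norm_of_nonneg (by positivity)]
  rw [e, div_le_div_iff₀ (by positivity) hN']
  nlinarith

lemma sh_inj {N : ℕ} (hN : 0 < N) : Function.Injective (sh F N) := by
  intro i j hij
  have hN' : (N : ℂ) ≠ 0 := by exact_mod_cast hN.ne'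
  have h1 : ((sh F N i : F) : ℂ) = ((sh F N j : F) : ℂ) := by rw [hij]
  rw [sh_coe, sh_coe] at h1
  field_simp at h1
  have h2 : (i : ℂ) = (j : ℂ) := by linear_combination h1
  exact_mod_cast h2

variable {Ω : Type} [MeasurableSpace Ω]

/-- The averages. -/
noncomputable def av (hI : Complex.I ∈ F) (X : F → Ω → ℝ) (N : ℕ) (ω : Ω) (z : ℂ) : ℝ :=
  (1 / (N : ℝ)) * ∑ j ∈ Finset.range N, X (q hI N z + sh F N j) ω

omit [MeasurableSpace Ω] in
lemma av_abs (hI : Complex.I ∈ F) {X : F → Ω → ℝ} (hb : ∀ x ω, |X x ω| ≤ 1) (N : ℕ) (ω : Ω)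
    (z : ℂ) : |av hI X N ω z| ≤ 1 := by
  unfold av
  rcases Nat.eq_zero_or_pos N with h | h
  · subst h
    simp
  have hN' : (0 : ℝ) < N := by exact_mod_cast h
  rw [abs_mul, abs_of_pos (by positivity : 0 < 1 / (N : ℝ))]
  have h1 : |∑ j ∈ Finset.range N, X (q hI N z + sh F N j) ω| ≤ N := by
    refine (Finset.abs_sum_le_sum_abs _ _).trans ?_
    refine (Finset.sum_le_sum fun j _ => hb _ ω).trans ?_
    simp
  calc 1 / (N : ℝ) * |∑ j ∈ Finset.range N, X (q hI N z + sh F N j) ω| ≤ 1 / (N : ℝ) * N := by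
        gcongr
    _ = 1 := by field_simp

lemma av_meas [Countable F] (hI : Complex.I ∈ F) {X : F → Ω → ℝ} (hX : ∀ x, Measurable (X x))
    (N : ℕ) : Measurable fun p : Ω × ℂ => av hI X N p.1 p.2 := by
  unfold av
  refine Measurable.const_mul (Finset.measurable_sum _ fun j _ => ?_) _
  have h1 : Measurable fun p : Ω × F => X p.2 p.1 :=
    measurable_from_prod_countable_left fun y => hX y
  have h2 : Measurable fun p : Ω × ℂ => (p.1, (q hI N p.2 + sh F N j : F)) := by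
    refine measurable_fst.prodMk ?_
    have h3 : Measurable fun z : ℂ => ((q hI N z + sh F N j : F) : ℂ) := by
      have e : (fun z : ℂ => ((q hI N z + sh F N j : F) : ℂ)) = fun z =>
          (⌊(N : ℝ) * z.re⌋ : ℂ) / (N : ℂ) + (⌊(N : ℝ) * z.im⌋ : ℂ) / (N : ℂ) * Complex.I +
            ((sh F N j : F) : ℂ) := by
        funext z
        push_cast
        rw [q_coe]
      rw [e]
      have f1 : Measurable fun z : ℂ => ((⌊(N : ℝ) * z.re⌋ : ℤ) : ℂ) := by
        have g1 : Measurable fun z : ℂ => ⌊(N : ℝ) * z.re⌋ :=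
          (Complex.measurable_re.const_mul _).floor
        exact (measurable_from_top (f := fun n : ℤ => (n : ℂ))).comp g1
      have f2 : Measurable fun z : ℂ => ((⌊(N : ℝ) * z.im⌋ : ℤ) : ℂ) := by
        have g1 : Measurable fun z : ℂ => ⌊(N : ℝ) * z.im⌋ :=
          (Complex.measurable_im.const_mul _).floor
        exact (measurable_from_top (f := fun n : ℤ => (n : ℂ))).comp g1
      exact ((f1.div_const _).add ((f2.div_const _).mul_const _)).add_const _
    exact (h3.subtype_mk (h := fun z => SetLike.coe_mem _)).comp measurable_snd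
  exact h1.comp h2

/-- The covariances of the averages. -/
lemma cov_bound (hI : Complex.I ∈ F) (P : Measure Ω) [IsProbabilityMeasure P] {X : F → Ω → ℝ}
    (hX : ∀ x, Measurable (X x)) (hb : ∀ x ω, |X x ω| ≤ 1) {ct : ℂ → ℝ} (hct1 : ∀ z, |ct z| ≤ 1)
    (hcov : ∀ x y : F, x ≠ y → ∫ ω, X x ω * X y ω ∂P = ct ((x : ℂ) - y)) {N M : ℕ} (hN : 0 < N)
    (hM : 0 < M) (z w : ℂ) {η : ℝ} (hη : 0 ≤ η)
    (hu : ∀ u : ℂ, ‖u - (z - w)‖ ≤ 3 / N + 3 / M → |ct u - ct (z - w)| ≤ η) :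
    |(∫ ω, av hI X N ω z * av hI X M ω w ∂P) - ct (z - w)| ≤ η + 2 / M := by
  classical
  have hN' : (0 : ℝ) < N := by exact_mod_cast hN
  have hM' : (0 : ℝ) < M := by exact_mod_cast hM
  set x : ℕ → F := fun j => q hI N z + sh F N j with hx
  set y : ℕ → F := fun k => q hI M w + sh F M k with hy
  have hyinj : Function.Injective y := by
    intro i j hij
    exact sh_inj hM (add_left_cancel hij)
  have hint : ∀ a b : F, Integrable (fun ω => X a ω * X b ω) P := by
    intro a b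
    refine Integrable.of_bound ((hX a).mul (hX b)).aestronglyMeasurable 1 (ae_of_all _ fun ω => ?_)
    rw [Real.norm_eq_abs, abs_mul]
    calc |X a ω| * |X b ω| ≤ 1 * 1 := mul_le_mul (hb _ _) (hb _ _) (abs_nonneg _) zero_le_one
      _ = 1 := one_mul 1
  have hEabs : ∀ a b : F, |∫ ω, X a ω * X b ω ∂P| ≤ 1 := by
    intro a b
    have h1 : ‖∫ ω, X a ω * X b ω ∂P‖ ≤ 1 * (P univ).toReal := by
      refine norm_integral_le_of_norm_le_const (ae_of_all _ fun ω => ?_)
      rw [Real.norm_eq_abs, abs_mul]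
      calc |X a ω| * |X b ω| ≤ 1 * 1 := mul_le_mul (hb _ _) (hb _ _) (abs_nonneg _) zero_le_one
        _ = 1 := one_mul 1
    simpa using h1
  have e1 : (∫ ω, av hI X N ω z * av hI X M ω w ∂P) =
      (1 / (N : ℝ)) * (1 / (M : ℝ)) * ∑ j ∈ Finset.range N, ∑ k ∈ Finset.range M,
        ∫ ω, X (x j) ω * X (y k) ω ∂P := by
    have e2 : (fun ω => av hI X N ω z * av hI X M ω w) = fun ω =>
        (1 / (N : ℝ)) * (1 / (M : ℝ)) * ∑ j ∈ Finset.range N, ∑ k ∈ Finset.range M,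
          X (x j) ω * X (y k) ω := by
      funext ω
      unfold av
      rw [← Finset.sum_mul_sum]
      ring
    rw [e2, integral_const_mul, integral_finsetSum _ fun j _ =>
      integrable_finsetSum _ fun k _ => hint _ _]
    congr 1
    refine Finset.sum_congr rfl fun j _ => ?_
    rw [integral_finsetSum _ fun k _ => hint _ _]
  have hterm : ∀ j ∈ Finset.range N, ∀ k ∈ Finset.range M,
      |(∫ ω, X (x j) ω * X (y k) ω ∂P) - ct (z - w)| ≤ η + 2 * (if y k = x j then 1 else 0) := by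
    intro j hj k hk
    by_cases hjk : y k = x j
    · rw [if_pos hjk]
      have h1 := abs_le.1 (hEabs (x j) (y k))
      have h2 := abs_le.1 (hct1 (z - w))
      rw [abs_le]
      constructor <;> linarith [h1.1, h1.2, h2.1, h2.2]
    · rw [if_neg hjk, hcov _ _ (Ne.symm hjk), mul_zero, add_zero]
      apply hu
      have e3 : ((x j : F) : ℂ) - ((y k : F) : ℂ) - (z - w) =
          (((q hI N z : F) : ℂ) - z) + ((sh F N j : F) : ℂ) -
            ((((q hI M w : F) : ℂ) - w) + ((sh F M k : F) : ℂ)) := by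
        simp only [hx, hy]
        push_cast
        ring
      rw [e3]
      have b1 := q_dist hI hN z
      have b2 := q_dist hI hM w
      have b3 := sh_norm (F := F) (Finset.mem_range.1 hj)
      have b4 := sh_norm (F := F) (Finset.mem_range.1 hk)
      calc ‖(((q hI N z : F) : ℂ) - z) + ((sh F N j : F) : ℂ) -
            ((((q hI M w : F) : ℂ) - w) + ((sh F M k : F) : ℂ))‖
          ≤ ‖(((q hI N z : F) : ℂ) - z) + ((sh F N j : F) : ℂ)‖ +
            ‖(((q hI M w : F) : ℂ) - w) + ((sh F M k : F) : ℂ)‖ := norm_sub_le _ _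
        _ ≤ (2 / N + 1 / N) + (2 / M + 1 / M) :=
            add_le_add ((norm_add_le _ _).trans (add_le_add b1 b3))
              ((norm_add_le _ _).trans (add_le_add b2 b4))
        _ = 3 / N + 3 / M := by ring
  have hcount : ∀ j, ∑ k ∈ Finset.range M, (if y k = x j then (1 : ℝ) else 0) ≤ 1 := by
    intro j
    rw [← Finset.sum_filter, Finset.sum_const, nsmul_eq_mul, mul_one]
    have : (Finset.filter (fun k => y k = x j) (Finset.range M)).card ≤ 1 := by
      rw [Finset.card_le_one]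
      intro a ha b hb'
      exact hyinj ((Finset.mem_filter.1 ha).2.trans (Finset.mem_filter.1 hb').2.symm)
    exact_mod_cast this
  have e4 : (∫ ω, av hI X N ω z * av hI X M ω w ∂P) - ct (z - w) =
      (1 / (N : ℝ)) * (1 / (M : ℝ)) * ∑ j ∈ Finset.range N, ∑ k ∈ Finset.range M,
        ((∫ ω, X (x j) ω * X (y k) ω ∂P) - ct (z - w)) := by
    rw [e1]
    simp only [Finset.sum_sub_distrib, Finset.sum_const, Finset.card_range, nsmul_eq_mul]
    field_simp
  rw [e4, abs_mul, abs_of_pos (by positivity : 0 < 1 / (N : ℝ) * (1 / (M : ℝ)))]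
  have h5 : |∑ j ∈ Finset.range N, ∑ k ∈ Finset.range M,
      ((∫ ω, X (x j) ω * X (y k) ω ∂P) - ct (z - w))| ≤ N * (M * η + 2) := by
    refine (Finset.abs_sum_le_sum_abs _ _).trans ?_
    calc ∑ j ∈ Finset.range N, |∑ k ∈ Finset.range M,
          ((∫ ω, X (x j) ω * X (y k) ω ∂P) - ct (z - w))|
        ≤ ∑ j ∈ Finset.range N, (M * η + 2) := by
          refine Finset.sum_le_sum fun j hj => ?_
          refine (Finset.abs_sum_le_sum_abs _ _).trans ?_
          refine (Finset.sum_le_sum fun k hk => hterm j hj k hk).trans ?_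
          rw [Finset.sum_add_distrib, ← Finset.mul_sum, Finset.sum_const, Finset.card_range,
            nsmul_eq_mul]
          have := hcount j
          linarith
      _ = N * (M * η + 2) := by
          rw [Finset.sum_const, Finset.card_range, nsmul_eq_mul]
  calc 1 / (N : ℝ) * (1 / (M : ℝ)) * |∑ j ∈ Finset.range N, ∑ k ∈ Finset.range M,
      ((∫ ω, X (x j) ω * X (y k) ω ∂P) - ct (z - w))|
      ≤ 1 / (N : ℝ) * (1 / (M : ℝ)) * (N * (M * η + 2)) := by gcongr
    _ = η + 2 / M := by field_simp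

/-- Uniform version on balls. -/
lemma cov_unif (hI : Complex.I ∈ F) (P : Measure Ω) [IsProbabilityMeasure P] {X : F → Ω → ℝ}
    (hX : ∀ x, Measurable (X x)) (hb : ∀ x ω, |X x ω| ≤ 1) {ct : ℂ → ℝ} (hct : Continuous ct)
    (hct1 : ∀ z, |ct z| ≤ 1)
    (hcov : ∀ x y : F, x ≠ y → ∫ ω, X x ω * X y ω ∂P = ct ((x : ℂ) - y)) (R : ℝ) {ε : ℝ}
    (hε : 0 < ε) :
    ∃ N0 : ℕ, ∀ N ≥ N0, ∀ M ≥ N0, ∀ z w : ℂ, ‖z‖ ≤ R → ‖w‖ ≤ R →
      |(∫ ω, av hI X N ω z * av hI X M ω w ∂P) - ct (z - w)| ≤ ε := by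
  have hK : IsCompact (Metric.closedBall (0 : ℂ) (2 * R + 1)) := isCompact_closedBall _ _
  have huc := hK.uniformContinuousOn_of_continuous hct.continuousOn
  rw [Metric.uniformContinuousOn_iff_le] at huc
  obtain ⟨δ, hδ, hδ'⟩ := huc (ε / 2) (by positivity)
  obtain ⟨N1, hN1⟩ := exists_nat_gt (6 / (min δ 1))
  obtain ⟨N2, hN2⟩ := exists_nat_gt (4 / ε)
  have hmin : 0 < min δ 1 := lt_min hδ one_pos
  refine ⟨max (N1 + 1) (N2 + 1), ?_⟩
  intro N hN M hM z w hz hw
  have hNpos : 0 < N := by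
    have := le_trans (le_max_left _ _) hN
    omega
  have hMpos : 0 < M := by
    have := le_trans (le_max_left _ _) hM
    omega
  have hN' : (0 : ℝ) < N := by exact_mod_cast hNpos
  have hM' : (0 : ℝ) < M := by exact_mod_cast hMpos
  have hNa : 6 / (min δ 1) < N := by
    refine hN1.trans_le ?_
    have := le_trans (le_max_left _ _) hN
    exact_mod_cast (by omega : N1 ≤ N)
  have hMa : 6 / (min δ 1) < M := by
    refine hN1.trans_le ?_
    have := le_trans (le_max_left _ _) hM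
    exact_mod_cast (by omega : N1 ≤ M)
  have hMb : 4 / ε < M := by
    refine hN2.trans_le ?_
    have := le_trans (le_max_right _ _) hM
    exact_mod_cast (by omega : N2 ≤ M)
  have h3N : 3 / (N : ℝ) ≤ min δ 1 / 2 := by
    rw [div_lt_iff₀ hmin] at hNa
    rw [div_le_div_iff₀ hN' (by norm_num)]
    linarith
  have h3M : 3 / (M : ℝ) ≤ min δ 1 / 2 := by
    rw [div_lt_iff₀ hmin] at hMa
    rw [div_le_div_iff₀ hM' (by norm_num)]
    linarith
  have h2M : 2 / (M : ℝ) ≤ ε / 2 := by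
    rw [div_lt_iff₀ hε] at hMb
    rw [div_le_div_iff₀ hM' (by norm_num)]
    linarith
  have h1 := cov_bound hI P hX hb hct1 hcov hNpos hMpos z w (η := ε / 2) (by positivity) (by
    intro u hu
    have hu' : ‖u - (z - w)‖ ≤ min δ 1 := by linarith
    have hzw : ‖z - w‖ ≤ 2 * R := by
      calc ‖z - w‖ ≤ ‖z‖ + ‖w‖ := norm_sub_le _ _
        _ ≤ 2 * R := by linarith
    have hun : ‖u‖ ≤ 2 * R + 1 := by
      calc ‖u‖ = ‖(u - (z - w)) + (z - w)‖ := by congr 1; ring
        _ ≤ ‖u - (z - w)‖ + ‖z - w‖ := norm_add_le _ _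
        _ ≤ 2 * R + 1 := by
          have := min_le_right δ 1
          linarith
    have h2 := hδ' u (by simpa using hun) (z - w) (by
      simp only [Metric.mem_closedBall, dist_zero_right]
      linarith) (by
      rw [dist_eq_norm]
      exact hu'.trans (min_le_left _ _))
    rwa [Real.dist_eq] at h2)
  linarith

lemma av_meas_left [Countable F] (hI : Complex.I ∈ F) {X : F → Ω → ℝ} (hX : ∀ x, Measurable (X x))
    (N : ℕ) (z : ℂ) : Measurable fun ω => av hI X N ω z := by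
  unfold av
  exact Measurable.const_mul (Finset.measurable_sum _ fun j _ => hX _) _

lemma int_mul {f g : Ω → ℝ} (P : Measure Ω) [IsProbabilityMeasure P] (hf : Measurable f)
    (hg : Measurable g) (bf : ∀ ω, |f ω| ≤ 1) (bg : ∀ ω, |g ω| ≤ 1) :
    Integrable (fun ω => f ω * g ω) P := by
  refine Integrable.of_bound (hf.mul hg).aestronglyMeasurable 1 (ae_of_all _ fun ω => ?_)
  rw [Real.norm_eq_abs, abs_mul]
  calc |f ω| * |g ω| ≤ 1 * 1 := mul_le_mul (bf _) (bg _) (abs_nonneg _) zero_le_one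
    _ = 1 := one_mul 1

/-- The mean square differences. -/
lemma sq_small [Countable F] (hI : Complex.I ∈ F) (P : Measure Ω) [IsProbabilityMeasure P] {X : F → Ω → ℝ}
    (hX : ∀ x, Measurable (X x)) (hb : ∀ x ω, |X x ω| ≤ 1) {ct : ℂ → ℝ} (hct : Continuous ct)
    (hct1 : ∀ z, |ct z| ≤ 1)
    (hcov : ∀ x y : F, x ≠ y → ∫ ω, X x ω * X y ω ∂P = ct ((x : ℂ) - y)) (R : ℝ) {ε : ℝ}
    (hε : 0 < ε) :
    ∃ N0 : ℕ, ∀ N ≥ N0, ∀ M ≥ N0, ∀ z : ℂ, ‖z‖ ≤ R →
      ∫ ω, (av hI X N ω z - av hI X M ω z) ^ 2 ∂P ≤ ε := by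
  obtain ⟨N0, hN0⟩ := cov_unif hI P hX hb hct hct1 hcov R (ε := ε / 4) (by positivity)
  refine ⟨N0, fun N hN M hM z hz => ?_⟩
  have h1 := abs_le.1 (hN0 N hN N hN z z hz hz)
  have h2 := abs_le.1 (hN0 N hN M hM z z hz hz)
  have h3 := abs_le.1 (hN0 M hM M hM z z hz hz)
  have i1 := int_mul P (av_meas_left hI hX N z) (av_meas_left hI hX N z)
    (fun ω => av_abs hI hb N ω z) (fun ω => av_abs hI hb N ω z)
  have i2 := int_mul P (av_meas_left hI hX N z) (av_meas_left hI hX M z)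
    (fun ω => av_abs hI hb N ω z) (fun ω => av_abs hI hb M ω z)
  have i3 := int_mul P (av_meas_left hI hX M z) (av_meas_left hI hX M z)
    (fun ω => av_abs hI hb M ω z) (fun ω => av_abs hI hb M ω z)
  have e : (fun ω => (av hI X N ω z - av hI X M ω z) ^ 2) = fun ω =>
      av hI X N ω z * av hI X N ω z - 2 * (av hI X N ω z * av hI X M ω z) +
        av hI X M ω z * av hI X M ω z := by
    funext ω
    ring
  have i2' : Integrable (fun ω => 2 * (av hI X N ω z * av hI X M ω z)) P := i2.const_mul 2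
  have i12 : Integrable (fun ω => av hI X N ω z * av hI X N ω z -
      2 * (av hI X N ω z * av hI X M ω z)) P := i1.sub i2'
  rw [e, integral_add i12 i3, integral_sub i1 i2', integral_const_mul]
  linarith [h1.2, h2.1, h3.2]

/-- **The limit process.** -/
theorem exists_process [Countable F] (hI : Complex.I ∈ F) (P : Measure Ω) [IsProbabilityMeasure P]
    {X : F → Ω → ℝ} (hX : ∀ x, Measurable (X x)) (hb : ∀ x ω, |X x ω| ≤ 1) {ct : ℂ → ℝ}
    (hct : Continuous ct) (hct1 : ∀ z, |ct z| ≤ 1)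
    (hcov : ∀ x y : F, x ≠ y → ∫ ω, X x ω * X y ω ∂P = ct ((x : ℂ) - y)) :
    ∃ ψ : Ω → ℂ → ℝ, Measurable (fun p : Ω × ℂ => ψ p.1 p.2) ∧ (∀ ω z, |ψ ω z| ≤ 1) ∧
      ∀ z w, ∫ ω, ψ ω z * ψ ω w ∂P = ct (z - w) := by
  -- the subsequence
  obtain ⟨φ, hφ, hφ'⟩ := extraction_forall_of_eventually'
    (P := fun n k => ∀ N ≥ k, ∀ M ≥ k, ∀ z : ℂ, ‖z‖ ≤ n →
      ∫ ω, (av hI X N ω z - av hI X M ω z) ^ 2 ∂P ≤ (1 / 4 : ℝ) ^ (n + 1)) (by
    intro n
    obtain ⟨N0, hN0⟩ := sq_small hI P hX hb hct hct1 hcov (n : ℝ) (ε := (1 / 4 : ℝ) ^ (n + 1))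
      (by positivity)
    exact ⟨N0, fun k hk N hN M hM z hz => hN0 N (hk.trans hN) M (hk.trans hM) z hz⟩)
  set lim : Ω → ℂ → ℝ := fun ω z => limsup (fun k => av hI X (φ k) ω z) atTop with hlim
  refine ⟨fun ω z => max (-1) (min 1 (lim ω z)), ?_, ?_, ?_⟩
  · refine measurable_const.max (measurable_const.min ?_)
    exact Measurable.limsup fun k => av_meas hI hX (φ k)
  · intro ω z
    rw [abs_le]
    exact ⟨le_max_left _ _, max_le (by norm_num) (min_le_left _ _)⟩
  · -- almost sure convergence at every point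
    have hconv : ∀ z : ℂ, ∀ᵐ ω ∂P, Tendsto (fun k => av hI X (φ k) ω z) atTop
        (𝓝 (max (-1) (min 1 (lim ω z)))) := by
      intro z
      obtain ⟨K, hK⟩ := exists_nat_ge ‖z‖
      have hB : (∑' n : ℕ, ENNReal.ofReal ((1 / 2 : ℝ) ^ n)) ≠ ⊤ := by
        rw [← ENNReal.ofReal_tsum_of_nonneg (fun n => by positivity)
          (summable_geometric_of_lt_one (by norm_num) (by norm_num))]
        exact ENNReal.ofReal_ne_top
      have h1 : ∀ᵐ ω ∂P, ∃ l : ℝ, Tendsto (fun k => av hI X (φ (k + K)) ω z) atTop (𝓝 l) := by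
        refine Lp.ae_tendsto_of_cauchy_eLpNorm (p := 1)
          (fun k => (av_meas_left hI hX (φ (k + K)) z).aestronglyMeasurable) le_rfl hB ?_
        intro N n m hn hm
        have h2 := hφ' (N + K) (φ (n + K)) (hφ.monotone (by omega)) (φ (m + K))
          (hφ.monotone (by omega)) z (by push_cast; linarith [Nat.cast_nonneg (α := ℝ) N])
        rw [eLpNorm_one_eq_lintegral_enorm, ← ofReal_integral_norm_eq_lintegral_enorm]
        · rw [ENNReal.ofReal_lt_ofReal_iff (by positivity)]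
          have i1 : Integrable (fun ω => (av hI X (φ (n + K)) ω z - av hI X (φ (m + K)) ω z) ^ 2) P := by
            refine Integrable.of_bound (((av_meas_left hI hX (φ (n + K)) z).sub
              (av_meas_left hI hX (φ (m + K)) z)).pow_const 2).aestronglyMeasurable 4
              (ae_of_all _ fun ω => ?_)
            have b1 := abs_le.1 (av_abs hI hb (φ (n + K)) ω z)
            have b2 := abs_le.1 (av_abs hI hb (φ (m + K)) ω z)
            rw [Real.norm_eq_abs, abs_of_nonneg (sq_nonneg _)]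
            nlinarith [b1.1, b1.2, b2.1, b2.2]
          have h3 : ∫ ω, ‖((fun ω => av hI X (φ (n + K)) ω z) - fun ω => av hI X (φ (m + K)) ω z) ω‖ ∂P
              ≤ ∫ ω, ((1 / 2 : ℝ) ^ N / 2 + (2 : ℝ) ^ N / 2 *
                (av hI X (φ (n + K)) ω z - av hI X (φ (m + K)) ω z) ^ 2) ∂P := by
            refine integral_mono_of_nonneg (ae_of_all _ fun ω => norm_nonneg _)
              ((integrable_const _).add (i1.const_mul _)) (ae_of_all _ fun ω => ?_)
            change ‖av hI X (φ (n + K)) ω z - av hI X (φ (m + K)) ω z‖ ≤ (1 / 2 : ℝ) ^ N / 2 +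
              (2 : ℝ) ^ N / 2 * (av hI X (φ (n + K)) ω z - av hI X (φ (m + K)) ω z) ^ 2
            rw [Real.norm_eq_abs]
            set d := av hI X (φ (n + K)) ω z - av hI X (φ (m + K)) ω z
            have e1 : (1 / 2 : ℝ) ^ N * (2 : ℝ) ^ N = 1 := by
              rw [← mul_pow]; norm_num
            have p2 : 0 < (2 : ℝ) ^ N := by positivity
            have p1 : 0 < (1 / 2 : ℝ) ^ N := by positivity
            have e2 : d ^ 2 = |d| ^ 2 := (sq_abs d).symm
            rw [e2]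
            have h4 : 0 ≤ (2 : ℝ) ^ N * (|d| - (1 / 2 : ℝ) ^ N) ^ 2 := by positivity
            have h5 : (2 : ℝ) ^ N * (|d| - (1 / 2 : ℝ) ^ N) ^ 2 =
                (2 : ℝ) ^ N * |d| ^ 2 - 2 * |d| + (1 / 2 : ℝ) ^ N := by
              have : (2 : ℝ) ^ N * (|d| - (1 / 2 : ℝ) ^ N) ^ 2 = (2 : ℝ) ^ N * |d| ^ 2 -
                  2 * |d| * ((1 / 2 : ℝ) ^ N * (2 : ℝ) ^ N) +
                  (1 / 2 : ℝ) ^ N * ((1 / 2 : ℝ) ^ N * (2 : ℝ) ^ N) := by ring
              rw [this, e1]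
              ring
            linarith
          refine h3.trans_lt ?_
          rw [integral_add (integrable_const _) (i1.const_mul _), integral_const_mul, integral_const]
          simp only [probReal_univ, one_smul]
          have h6 : (2 : ℝ) ^ N / 2 * ∫ ω, (av hI X (φ (n + K)) ω z - av hI X (φ (m + K)) ω z) ^ 2 ∂P
              ≤ (2 : ℝ) ^ N / 2 * (1 / 4 : ℝ) ^ (N + 1) := by
            refine mul_le_mul_of_nonneg_left (h2.trans ?_) (by positivity)
            exact pow_le_pow_of_le_one (by norm_num) (by norm_num) (by omega)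
          have h7 : (2 : ℝ) ^ N / 2 * (1 / 4 : ℝ) ^ (N + 1) = (1 / 2 : ℝ) ^ N / 8 := by
            have e1 : (1 / 4 : ℝ) ^ N = (1 / 2 : ℝ) ^ N * (1 / 2 : ℝ) ^ N := by
              rw [← mul_pow]; norm_num
            have e2 : (1 / 2 : ℝ) ^ N * (2 : ℝ) ^ N = 1 := by
              rw [← mul_pow]; norm_num
            rw [pow_succ, e1]
            linear_combination ((1 / 2 : ℝ) ^ N / 8) * e2
          have p1 : 0 < (1 / 2 : ℝ) ^ N := by positivity
          linarith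
        · refine Integrable.of_bound ((av_meas_left hI hX (φ (n + K)) z).sub
            (av_meas_left hI hX (φ (m + K)) z)).aestronglyMeasurable 2 (ae_of_all _ fun ω => ?_)
          have b1 := abs_le.1 (av_abs hI hb (φ (n + K)) ω z)
          have b2 := abs_le.1 (av_abs hI hb (φ (m + K)) ω z)
          change ‖av hI X (φ (n + K)) ω z - av hI X (φ (m + K)) ω z‖ ≤ 2
          rw [Real.norm_eq_abs, abs_le]
          constructor <;> linarith [b1.1, b1.2, b2.1, b2.2]
      filter_upwards [h1] with ω hω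
      obtain ⟨l, hl⟩ := hω
      have hl' : Tendsto (fun k => av hI X (φ k) ω z) atTop (𝓝 l) :=
        (tendsto_add_atTop_iff_nat K).1 hl
      have e1 : lim ω z = l := hl'.limsup_eq
      have hl1 : l ≤ 1 := le_of_tendsto' hl' fun k => (abs_le.1 (av_abs hI hb (φ k) ω z)).2
      have hl2 : -1 ≤ l := ge_of_tendsto' hl' fun k => (abs_le.1 (av_abs hI hb (φ k) ω z)).1
      rw [e1, min_eq_right hl1, max_eq_right hl2]
      exact hl'
    intro z w
    have h1 : Tendsto (fun k => ∫ ω, av hI X (φ k) ω z * av hI X (φ k) ω w ∂P) atTop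
        (𝓝 (∫ ω, (max (-1) (min 1 (lim ω z))) * (max (-1) (min 1 (lim ω w))) ∂P)) := by
      refine tendsto_integral_of_dominated_convergence (fun _ => (1 : ℝ))
        (fun k => ((av_meas_left hI hX (φ k) z).mul (av_meas_left hI hX (φ k) w)).aestronglyMeasurable)
        (integrable_const _) (fun k => ae_of_all _ fun ω => ?_) ?_
      · rw [Real.norm_eq_abs, abs_mul]
        calc |av hI X (φ k) ω z| * |av hI X (φ k) ω w| ≤ 1 * 1 :=
              mul_le_mul (av_abs hI hb _ _ _) (av_abs hI hb _ _ _) (abs_nonneg _) zero_le_one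
          _ = 1 := one_mul 1
      · filter_upwards [hconv z, hconv w] with ω h1 h2
        exact h1.mul h2
    have h2 : Tendsto (fun k => ∫ ω, av hI X (φ k) ω z * av hI X (φ k) ω w ∂P) atTop
        (𝓝 (ct (z - w))) := by
      rw [Metric.tendsto_atTop]
      intro ε hε
      obtain ⟨N0, hN0⟩ := cov_unif hI P hX hb hct hct1 hcov (max ‖z‖ ‖w‖) (ε := ε / 2) (by positivity)
      refine ⟨N0, fun k hk => ?_⟩
      have hk' : N0 ≤ φ k := hk.le.trans (hφ.id_le k)
      have := hN0 (φ k) hk' (φ k) hk' z w (le_max_left _ _) (le_max_right _ _)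
      rw [Real.dist_eq]
      linarith
    exact tendsto_nhds_unique h1 h2

lemma R_nonneg {x y z : ℝ} (hx : |x| ≤ 1) (hy : |y| ≤ 1) (hz : |z| ≤ 1) :
    0 ≤ x * y + x * z + y * z + 1 := by
  obtain ⟨x1, x2⟩ := abs_le.1 hx
  obtain ⟨y1, y2⟩ := abs_le.1 hy
  obtain ⟨z1, z2⟩ := abs_le.1 hz
  have h1 : 0 ≤ (1 + x) * (1 + y) * (1 + z) :=
    mul_nonneg (mul_nonneg (by linarith) (by linarith)) (by linarith)
  have h2 : 0 ≤ (1 - x) * (1 - y) * (1 - z) :=
    mul_nonneg (mul_nonneg (by linarith) (by linarith)) (by linarith)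
  nlinarith

/-- Almost every sample function satisfies a given relation. -/
lemma ae_rel (P : Measure Ω) [IsProbabilityMeasure P] {ψ : Ω → ℂ → ℝ}
    (hm : Measurable fun p : Ω × ℂ => ψ p.1 p.2) (hb : ∀ ω z, |ψ ω z| ≤ 1) {ct : ℂ → ℝ}
    (hcov : ∀ z w, ∫ ω, ψ ω z * ψ ω w ∂P = ct (z - w)) {r : ℝ}
    (h1 : ∀ z, ‖z‖ = 1 → ct z = -1 / 3) (hr : ∀ z, ‖z‖ = r → ct z = -1 / 3) {a b : ℂ}
    (ha : ‖a‖ = 1 ∨ ‖a‖ = r) (hbn : ‖b‖ = 1 ∨ ‖b‖ = r) (hab : ‖a - b‖ = 1 ∨ ‖a - b‖ = r) :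
    ∀ᵐ ω ∂P, Rel (ψ ω) a b := by
  have hc := continuous_cis
  have hz1 : ∀ z : ℂ, Measurable fun ω => ψ ω z := fun z =>
    Measurable.comp (g := fun p : Ω × ℂ => ψ p.1 p.2) hm measurable_prodMk_right
  have hct : ∀ z : ℂ, (‖z‖ = 1 ∨ ‖z‖ = r) → ct z = -1 / 3 := fun z hz => hz.elim (h1 z) (hr z)
  have hpt : ∀ p : ℂ × ℝ, ∀ᵐ ω ∂P, ψ ω p.1 * ψ ω (p.1 + a * cis p.2) +
      ψ ω p.1 * ψ ω (p.1 + b * cis p.2) + ψ ω (p.1 + a * cis p.2) * ψ ω (p.1 + b * cis p.2) = -1 := by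
    intro p
    set z := p.1
    set t := p.2
    have i1 := int_mul P (hz1 z) (hz1 (z + a * cis t)) (fun ω => hb ω _) (fun ω => hb ω _)
    have i2 := int_mul P (hz1 z) (hz1 (z + b * cis t)) (fun ω => hb ω _) (fun ω => hb ω _)
    have i3 := int_mul P (hz1 (z + a * cis t)) (hz1 (z + b * cis t)) (fun ω => hb ω _)
      (fun ω => hb ω _)
    have hn : ∀ c : ℂ, ‖-(c * cis t)‖ = ‖c‖ := by
      intro c
      rw [norm_neg, norm_mul, norm_cis, mul_one]
    have e1 : ∫ ω, ψ ω z * ψ ω (z + a * cis t) ∂P = -1 / 3 := by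
      rw [hcov, show z - (z + a * cis t) = -(a * cis t) by ring]
      exact hct _ (by rw [hn]; exact ha)
    have e2 : ∫ ω, ψ ω z * ψ ω (z + b * cis t) ∂P = -1 / 3 := by
      rw [hcov, show z - (z + b * cis t) = -(b * cis t) by ring]
      exact hct _ (by rw [hn]; exact hbn)
    have e3 : ∫ ω, ψ ω (z + a * cis t) * ψ ω (z + b * cis t) ∂P = -1 / 3 := by
      rw [hcov, show z + a * cis t - (z + b * cis t) = (a - b) * cis t by ring]
      exact hct _ (by rw [norm_mul, norm_cis, mul_one]; exact hab)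
    have i12 : Integrable (fun ω => ψ ω z * ψ ω (z + a * cis t) + ψ ω z * ψ ω (z + b * cis t)) P :=
      i1.add i2
    have i123 : Integrable (fun ω => ψ ω z * ψ ω (z + a * cis t) + ψ ω z * ψ ω (z + b * cis t) +
      ψ ω (z + a * cis t) * ψ ω (z + b * cis t)) P := i12.add i3
    have hint : ∫ ω, (ψ ω z * ψ ω (z + a * cis t) + ψ ω z * ψ ω (z + b * cis t) +
        ψ ω (z + a * cis t) * ψ ω (z + b * cis t) + 1) ∂P = 0 := by
      rw [integral_add i123 (integrable_const _), integral_add i12 i3, integral_add i1 i2, e1, e2,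
        e3, integral_const]
      simp only [probReal_univ, one_smul]
      norm_num
    have h0 := (integral_eq_zero_iff_of_nonneg (fun ω => R_nonneg (hb ω z) (hb ω (z + a * cis t))
      (hb ω (z + b * cis t))) (i123.add (integrable_const _))).1 hint
    filter_upwards [h0] with ω hω
    have hω' : ψ ω z * ψ ω (z + a * cis t) + ψ ω z * ψ ω (z + b * cis t) +
        ψ ω (z + a * cis t) * ψ ω (z + b * cis t) + 1 = 0 := hω
    linarith
  have hset : MeasurableSet {x : Ω × (ℂ × ℝ) | ψ x.1 x.2.1 * ψ x.1 (x.2.1 + a * cis x.2.2) +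
      ψ x.1 x.2.1 * ψ x.1 (x.2.1 + b * cis x.2.2) +
      ψ x.1 (x.2.1 + a * cis x.2.2) * ψ x.1 (x.2.1 + b * cis x.2.2) = -1} := by
    have m0 : ∀ g : Ω × (ℂ × ℝ) → ℂ, Measurable g → Measurable fun x => ψ x.1 (g x) := fun g hg =>
      Measurable.comp (g := fun p : Ω × ℂ => ψ p.1 p.2) hm (measurable_fst.prodMk hg)
    have m1 := m0 (fun x => x.2.1) (measurable_fst.comp measurable_snd)
    have m2 := m0 (fun x => x.2.1 + a * cis x.2.2) (by fun_prop)
    have m3 := m0 (fun x => x.2.1 + b * cis x.2.2) (by fun_prop)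
    exact ((m1.mul m2).add (m1.mul m3)).add (m2.mul m3) (measurableSet_singleton _)
  have h2 := (Measure.ae_ae_comm (μ := P) (ν := (volume : Measure (ℂ × ℝ))) hset).2
    (ae_of_all _ hpt)
  filter_upwards [h2] with ω hω
  exact Measure.ae_ae_of_ae_prod hω

/-- The two intersection points of two circles. -/
lemma circ_finite {ρ : ℝ} (hρ : 0 < ρ) (ρ' ρ'' : ℝ) :
    {b : ℂ | ‖b‖ = ρ' ∧ ‖(ρ : ℂ) - b‖ = ρ''}.Finite := by
  set c : ℝ := (ρ ^ 2 + ρ' ^ 2 - ρ'' ^ 2) / (2 * ρ) with hc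
  set d : ℝ := ρ' ^ 2 - c ^ 2 with hd
  refine Set.Finite.subset (Set.toFinite {(⟨c, Real.sqrt d⟩ : ℂ), (⟨c, -Real.sqrt d⟩ : ℂ)}) ?_
  rintro b ⟨h1, h2⟩
  have n1 : b.re ^ 2 + b.im ^ 2 = ρ' ^ 2 := by
    rw [← h1, ← Complex.normSq_eq_norm_sq, Complex.normSq_apply]
    ring
  have n2 : (ρ - b.re) ^ 2 + b.im ^ 2 = ρ'' ^ 2 := by
    rw [← h2, ← Complex.normSq_eq_norm_sq, Complex.normSq_apply]
    simp only [Complex.sub_re, Complex.sub_im, Complex.ofReal_re, Complex.ofReal_im]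
    ring
  have e1 : b.re = c := by
    rw [hc, eq_div_iff (by positivity)]
    linarith
  have e2 : b.im ^ 2 = d := by
    rw [hd, ← e1]
    linarith
  have e3 : Real.sqrt d = |b.im| := by rw [← e2, Real.sqrt_sq_eq_abs]
  rcases abs_choice b.im with h | h
  · left
    apply Complex.ext
    · exact e1
    · change b.im = Real.sqrt d
      rw [e3, h]
  · right
    apply Complex.ext
    · exact e1
    · change b.im = -Real.sqrt d
      rw [e3, h, neg_neg]

lemma shapes_finite {r : ℝ} {ρ : ℝ} (hρ : 0 < ρ) :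
    {b : ℂ | (‖b‖ = 1 ∨ ‖b‖ = r) ∧ (‖(ρ : ℂ) - b‖ = 1 ∨ ‖(ρ : ℂ) - b‖ = r)}.Finite := by
  refine Set.Finite.subset ((circ_finite hρ 1 1).union ((circ_finite hρ 1 r).union
    ((circ_finite hρ r 1).union (circ_finite hρ r r)))) ?_
  rintro b ⟨h1 | h1, h2 | h2⟩
  · exact Or.inl ⟨h1, h2⟩
  · exact Or.inr (Or.inl ⟨h1, h2⟩)
  · exact Or.inr (Or.inr (Or.inl ⟨h1, h2⟩))
  · exact Or.inr (Or.inr (Or.inr ⟨h1, h2⟩))

end PhiAux

open PhiAux in
/-- **§10.2 and §10.3.** -/
theorem exists_adm {Ω : Type} [MeasurableSpace Ω] (F : Subfield ℂ) [Countable F]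
    (hI : Complex.I ∈ F) (P : Measure Ω) [IsProbabilityMeasure P] (X : F → Ω → ℝ)
    (hX : ∀ x, Measurable (X x)) (hb : ∀ x ω, |X x ω| ≤ 1) (ct : ℂ → ℝ) (hct : Continuous ct)
    (hct1 : ∀ z, |ct z| ≤ 1)
    (hcov : ∀ x y : F, x ≠ y → ∫ ω, X x ω * X y ω ∂P = ct ((x : ℂ) - y)) {r : ℝ} (hr0 : 0 < r)
    (h1 : ∀ z, ‖z‖ = 1 → ct z = -1 / 3) (hr : ∀ z, ‖z‖ = r → ct z = -1 / 3) :
    ∃ φ : ℂ → ℝ, Adm φ r := by
  obtain ⟨ψ, hψm, hψb, hψc⟩ := exists_process hI P hX hb hct hct1 hcov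
  have hae : ∀ ρ : ℝ, 0 < ρ → (ρ = 1 ∨ ρ = r) → ∀ᵐ ω ∂P, ∀ b ∈ {b : ℂ | (‖b‖ = 1 ∨ ‖b‖ = r) ∧
      (‖(ρ : ℂ) - b‖ = 1 ∨ ‖(ρ : ℂ) - b‖ = r)}, Rel (ψ ω) (ρ : ℂ) b := by
    intro ρ hρ hρr
    rw [ae_ball_iff (shapes_finite hρ).countable]
    rintro b ⟨hb1, hb2⟩
    refine ae_rel P hψm hψb hψc h1 hr ?_ hb1 hb2
    rw [Complex.norm_real, Real.norm_of_nonneg hρ.le]
    exact hρr
  obtain ⟨ω, hω1, hωr⟩ := ((hae 1 one_pos (Or.inl rfl)).and (hae r hr0 (Or.inr rfl))).exists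
  refine ⟨ψ ω, Measurable.comp (g := fun p : Ω × ℂ => ψ p.1 p.2) hψm measurable_prodMk_left,
    hψb ω, ?_⟩
  intro a b ha hbn hab
  set α : ℝ := Complex.arg a with hα
  have ea : a = (‖a‖ : ℂ) * cis α := (Complex.norm_mul_exp_arg_mul_I a).symm
  have ha0 : 0 < ‖a‖ := by
    rcases ha with h | h
    · rw [h]; exact one_pos
    · rw [h]; exact hr0
  have hcc : cis α * cis (-α) = 1 := by rw [← cis_add, add_neg_cancel, cis_zero]
  have hb' : b * cis (-α) ∈ {b : ℂ | (‖b‖ = 1 ∨ ‖b‖ = r) ∧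
      (‖((‖a‖ : ℝ) : ℂ) - b‖ = 1 ∨ ‖((‖a‖ : ℝ) : ℂ) - b‖ = r)} := by
    refine ⟨?_, ?_⟩
    · rw [norm_mul, norm_cis, mul_one]
      exact hbn
    · have e : ((‖a‖ : ℝ) : ℂ) - b * cis (-α) = (a - b) * cis (-α) := by
        conv_rhs => rw [ea]
        linear_combination (-(‖a‖ : ℂ)) * hcc
      rw [e, norm_mul, norm_cis, mul_one]
      exact hab
  have hrel : Rel (ψ ω) ((‖a‖ : ℝ) : ℂ) (b * cis (-α)) := by
    rcases ha with h | h
    · rw [h] at hb' ⊢
      exact hω1 _ hb'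
    · rw [h] at hb' ⊢
      exact hωr _ hb'
  unfold Rel at hrel ⊢
  filter_upwards [hrel] with z hz
  filter_upwards [P3852L.ae_add hz α] with t ht
  have e1 : ((‖a‖ : ℝ) : ℂ) * cis (t + α) = a * cis t := by
    conv_rhs => rw [ea]
    rw [cis_add]
    ring
  have e2 : b * cis (-α) * cis (t + α) = b * cis t := by
    rw [cis_add]
    linear_combination (b * cis t) * hcc
  rw [e1, e2] at ht
  exact ht

end Pool.Agent.Lib.P3852H
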