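import Mathlib
import Pool.Agent.Lib.P3852H.Field
import Pool.Agent.Lib.P3852H.Process
import Pool.Agent.Lib.P3852H.PhiProc

/-!
# The continuous extension of a continuous radial positive definite function
-/

set_option autoImplicit false

namespace Pool.Agent.Lib.P3852H

open Filter Topology

lemma GoodF.I_mem {F : Subfield ℂ} (hF : GoodF F) : Complex.I ∈ F := by
  refine hF.root 2 two_pos _ ?_
  rw [Complex.I_sq]
  exact F.neg_mem F.one_mem

lemma GoodF.norm_mem {F : Subfield ℂ} (hF : GoodF F) {x : ℂ} (hx : x ∈ F) : ((‖x‖ : ℝ) : ℂ) ∈ F := by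
  refine hF.root 2 two_pos _ ?_
  have e : ((‖x‖ : ℝ) : ℂ) ^ 2 = x * (starRingEnd ℂ) x := by
    rw [Complex.mul_conj, Complex.normSq_eq_norm_sq]
    push_cast
    rfl
  rw [e]
  exact F.mul_mem hx (hF.conj x hx)

lemma GoodF.cis_mem {F : Subfield ℂ} (hF : GoodF F) : P3852e9.cis (Real.pi / 3) ∈ F := by
  refine hF.root 6 (by norm_num) _ ?_
  have e : P3852e9.cis (Real.pi / 3) ^ 6 = 1 := by
    unfold P3852e9.cis
    rw [← Complex.exp_nat_mul, Complex.exp_eq_one_iff]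
    refine ⟨1, ?_⟩
    push_cast
    ring
  rw [e]
  exact F.one_mem

namespace ExtAux

variable {F : Subfield ℂ} {c : F → ℝ}

lemma c_neg (hrad : ∀ x y : F, ‖(x : ℂ)‖ = ‖(y : ℂ)‖ → c x = c y) (x : F) : c (-x) = c x :=
  hrad _ _ (by push_cast; rw [norm_neg])

lemma c_zero_nonneg (h : PosDef F c) : 0 ≤ c 0 := by
  have := h {0} (fun _ => 1)
  simpa using this

lemma c_abs (h : PosDef F c) (hrad : ∀ x y : F, ‖(x : ℂ)‖ = ‖(y : ℂ)‖ → c x = c y) (x : F) :
    |c x| ≤ c 0 := by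
  classical
  by_cases hx : x = 0
  · rw [hx, abs_of_nonneg (c_zero_nonneg h)]
  have h1 := h {x, 0} (fun _ => 1)
  have h2 := h {x, 0} (fun y => if y = x then 1 else -1)
  rw [Finset.sum_pair hx, Finset.sum_pair hx, Finset.sum_pair hx] at h1 h2
  simp only [sub_self, sub_zero, zero_sub, one_mul, c_neg hrad, if_true, if_neg (Ne.symm hx)] at h1 h2
  rw [abs_le]
  constructor <;> linarith

lemma c_diff (h : PosDef F c) (hrad : ∀ x y : F, ‖(x : ℂ)‖ = ‖(y : ℂ)‖ → c x = c y) (x y : F) :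
    (c x - c y) ^ 2 ≤ 2 * c 0 * (c 0 - c (x - y)) := by
  classical
  have h0 := c_zero_nonneg h
  have hle : ∀ z, c z ≤ c 0 := fun z => (abs_le.1 (c_abs h hrad z)).2
  have hge : ∀ z, -c 0 ≤ c z := fun z => (abs_le.1 (c_abs h hrad z)).1
  by_cases hxy : x = y
  · subst hxy
    simp
  by_cases hx : x = 0
  · subst hx
    rw [zero_sub, c_neg hrad]
    nlinarith [hle y, hge y]
  by_cases hy : y = 0
  · subst hy
    rw [sub_zero]
    nlinarith [hle x, hge x]
  rcases h0.eq_or_lt with h00 | h00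
  · have e1 : c x = 0 := le_antisymm (by rw [h00]; exact hle x) (by have := hge x; rw [← h00] at this; linarith)
    have e2 : c y = 0 := le_antisymm (by rw [h00]; exact hle y) (by have := hge y; rw [← h00] at this; linarith)
    rw [e1, e2, ← h00]
    simp
  have h1 := h {x, y, 0} (fun z => if z = x then c 0 else if z = y then -c 0 else -(c x - c y))
  have hne : x ∉ ({y, 0} : Finset F) := by
    simp only [Finset.mem_insert, Finset.mem_singleton, not_or]
    exact ⟨hxy, hx⟩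
  rw [Finset.sum_insert hne, Finset.sum_insert hne, Finset.sum_pair hy, Finset.sum_pair hy,
    Finset.sum_insert hne, Finset.sum_insert hne, Finset.sum_pair hy, Finset.sum_pair hy] at h1
  have hyx : c (y - x) = c (x - y) := by rw [← c_neg hrad, neg_sub]
  simp only [sub_self, sub_zero, zero_sub, c_neg hrad, if_true, if_neg (Ne.symm hx),
    if_neg (Ne.symm hy), if_neg (Ne.symm hxy), hyx] at h1
  have h2 : 0 ≤ c 0 * (2 * c 0 * (c 0 - c (x - y)) - (c x - c y) ^ 2) := by nlinarith [h1]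
  have h3 := nonneg_of_mul_nonneg_right h2 h00
  linarith

lemma c_unif (h : PosDef F c) (hrad : ∀ x y : F, ‖(x : ℂ)‖ = ‖(y : ℂ)‖ → c x = c y) (h1 : c 0 ≤ 1)
    (hcont : ∀ ε > 0, ∃ δ > 0, ∀ x : F, ‖(x : ℂ)‖ < δ → |c x - c 0| < ε) : UniformContinuous c := by
  rw [Metric.uniformContinuous_iff]
  intro ε hε
  obtain ⟨δ, hδ, hδ'⟩ := hcont (ε ^ 2 / 2) (by positivity)
  refine ⟨δ, hδ, fun {x y} hxy => ?_⟩
  have hn : ‖((x - y : F) : ℂ)‖ < δ := by
    have e : dist x y = ‖((x - y : F) : ℂ)‖ := by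
      rw [Subtype.dist_eq, dist_eq_norm]
      push_cast
      rfl
    rwa [← e]
  have h2 := abs_lt.1 (hδ' _ hn)
  have h3 := c_diff h hrad x y
  have h4 : (c x - c y) ^ 2 < ε ^ 2 := by
    have h5 := c_zero_nonneg h
    have h6 : 0 ≤ c 0 - c (x - y) := by linarith [(abs_le.1 (c_abs h hrad (x - y))).2]
    nlinarith [h2.1]
  rw [Real.dist_eq]
  exact abs_lt_of_sq_lt_sq h4 hε.le

lemma dense_val (hI : Complex.I ∈ F) : DenseRange (fun x : F => (x : ℂ)) := by
  intro z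
  rw [Metric.mem_closure_iff]
  intro ε hε
  obtain ⟨N, hN⟩ := exists_nat_gt (2 / ε)
  have hN' : (0 : ℝ) < N := lt_trans (by positivity) hN
  have hN0 : 0 < N := by exact_mod_cast hN'
  refine ⟨_, ⟨PhiAux.q hI N z, rfl⟩, ?_⟩
  rw [dist_comm, dist_eq_norm]
  refine (PhiAux.q_dist hI hN0 z).trans_lt ?_
  rw [div_lt_iff₀ hN']
  rwa [div_lt_iff₀ hε, mul_comm] at hN

end ExtAux

open ExtAux in
/-- **The extension.** -/
theorem exists_ext {F : Subfield ℂ} (hF : GoodF F) {c : F → ℝ} (h : PosDef F c)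
    (hrad : ∀ x y : F, ‖(x : ℂ)‖ = ‖(y : ℂ)‖ → c x = c y) (h1 : c 0 ≤ 1)
    (hcont : ∀ ε > 0, ∃ δ > 0, ∀ x : F, ‖(x : ℂ)‖ < δ → |c x - c 0| < ε) :
    ∃ ct : ℂ → ℝ, Continuous ct ∧ (∀ z, |ct z| ≤ 1) ∧
      ∀ (x : F) (z : ℂ), ‖z‖ = ‖(x : ℂ)‖ → ct z = c x := by
  have hd := dense_val hF.I_mem
  have hu : IsUniformInducing (fun x : F => (x : ℂ)) := isUniformEmbedding_subtype_val.isUniformInducing
  have hcu := c_unif h hrad h1 hcont
  set ct : ℂ → ℝ := (hu.isDenseInducing hd).extend c with hct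
  have hctc : Continuous ct := (uniformContinuous_uniformly_extend hu hd hcu).continuous
  have hval : ∀ x : F, ct (x : ℂ) = c x := fun x => uniformly_extend_of_ind hu hd hcu x
  refine ⟨ct, hctc, ?_, ?_⟩
  · intro z
    refine hd.induction_on (p := fun z => |ct z| ≤ 1) z
      (isClosed_le hctc.abs continuous_const) ?_
    intro x
    rw [hval]
    exact (c_abs h hrad x).trans h1
  · intro x z hz
    by_cases hx : x = 0
    · subst hx
      have : z = 0 := by
        rw [← norm_eq_zero, hz]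
        simp
      rw [this]
      exact_mod_cast hval 0
    · have hx0 : (x : ℂ) ≠ 0 := by exact_mod_cast hx
      have hz0 : z ≠ 0 := by
        rw [← norm_ne_zero_iff, hz]
        exact norm_ne_zero_iff.2 hx0
      -- the function `g w = ct (‖x‖ w / ‖w‖)` is continuous off 0 and equal to `c x` on `F`
      have hzn : ((‖(x : ℂ)‖ : ℝ) : ℂ) * z / ((‖z‖ : ℝ) : ℂ) = z := by
        rw [hz, mul_comm, mul_div_assoc, div_self, mul_one]
        exact_mod_cast norm_ne_zero_iff.2 hx0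
      have hgc : ContinuousAt (fun w : ℂ => ct (((‖(x : ℂ)‖ : ℝ) : ℂ) * w / ((‖w‖ : ℝ) : ℂ))) z := by
        refine hctc.continuousAt.comp ?_
        refine ContinuousAt.div (by fun_prop) (by fun_prop) ?_
        exact_mod_cast norm_ne_zero_iff.2 hz0
      have hmem : z ∈ closure (Set.range fun y : F => (y : ℂ)) := hd z
      rw [mem_closure_iff_clusterPt, clusterPt_principal_iff_frequently] at hmem
      have hfreq : ∃ᶠ w in 𝓝 z, ct (((‖(x : ℂ)‖ : ℝ) : ℂ) * w / ((‖w‖ : ℝ) : ℂ)) = c x := by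
        refine (hmem.and_eventually (isOpen_ne.mem_nhds hz0)).mono ?_
        rintro w ⟨⟨y, rfl⟩, hy0⟩
        have hy0' : (y : ℂ) ≠ 0 := hy0
        set n1 : F := ⟨((‖(x : ℂ)‖ : ℝ) : ℂ), hF.norm_mem x.2⟩ with hn1
        set n2 : F := ⟨((‖(y : ℂ)‖ : ℝ) : ℂ), hF.norm_mem y.2⟩ with hn2
        have e : ((‖(x : ℂ)‖ : ℝ) : ℂ) * (y : ℂ) / ((‖(y : ℂ)‖ : ℝ) : ℂ) =
            ((n1 * y / n2 : F) : ℂ) := by
          push_cast
          rfl
        change ct (((‖(x : ℂ)‖ : ℝ) : ℂ) * (y : ℂ) / ((‖(y : ℂ)‖ : ℝ) : ℂ)) = c x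
        rw [e, hval]
        apply hrad
        rw [← e, norm_div, norm_mul, Complex.norm_real, Complex.norm_real, norm_norm, norm_norm,
          mul_div_assoc, div_self (norm_ne_zero_iff.2 hy0'), mul_one]
      have h3 : Tendsto (fun w : ℂ => ct (((‖(x : ℂ)‖ : ℝ) : ℂ) * w / ((‖w‖ : ℝ) : ℂ))) (𝓝 z)
          (𝓝 (ct z)) := by
        have := hgc.tendsto
        rwa [hzn] at this
      by_contra hcon
      have h4 : ∀ᶠ w in 𝓝 z, ct (((‖(x : ℂ)‖ : ℝ) : ℂ) * w / ((‖w‖ : ℝ) : ℂ)) ≠ c x :=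
        h3.eventually (isOpen_ne.mem_nhds hcon)
      exact hfreq h4

end Pool.Agent.Lib.P3852H
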