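import Mathlib
import Pool.Agent.Lib.P3852H.Rel
import Pool.Agent.Lib.P3852e9.PartB

/-!
# There is no admissible function for `r ≥ 2`

The argument of `P3852e9.PartB` with `φ` cut off at radius `R` in place of the colouring.
-/

set_option autoImplicit false

namespace Pool.Agent.Lib.P3852H

open MeasureTheory Complex Pool.Agent.Lib.P3852e9

namespace LargeAux

/-- `φ` cut off at radius `R`. -/
noncomputable def ct (φ : ℂ → ℝ) (R : ℝ) : ℂ → ℝ := (Metric.ball (0 : ℂ) R).indicator φ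

lemma ct_in (φ : ℂ → ℝ) {R : ℝ} {z : ℂ} (h : ‖z‖ < R) : ct φ R z = φ z :=
  Set.indicator_of_mem (by simpa using h) _

lemma ct_out (φ : ℂ → ℝ) {R : ℝ} {z : ℂ} (h : ¬ ‖z‖ < R) : ct φ R z = 0 :=
  Set.indicator_of_notMem (by simpa using h) _

variable {φ : ℂ → ℝ} {r : ℝ}

lemma ct_abs_le (hb : ∀ z, |φ z| ≤ 1) (R : ℝ) (z : ℂ) : |ct φ R z| ≤ 1 := by
  by_cases h : ‖z‖ < R
  · rw [ct_in φ h]
    exact hb z
  · rw [ct_out φ h]
    simp

lemma ct_meas (hm : Measurable φ) (R : ℝ) : Measurable (ct φ R) :=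
  hm.indicator Metric.isOpen_ball.measurableSet

lemma ct_memLp (hm : Measurable φ) (hb : ∀ z, |φ z| ≤ 1) (R : ℝ) : MemLp (ct φ R) 2 volume := by
  unfold ct
  rw [memLp_indicator_iff_restrict Metric.isOpen_ball.measurableSet]
  have : IsFiniteMeasure (volume.restrict (Metric.ball (0 : ℂ) R)) := by
    constructor
    rw [Measure.restrict_apply_univ]
    exact measure_ball_lt_top
  exact MemLp.of_bound hm.aestronglyMeasurable 1 (ae_of_all _ fun z => hb z)

lemma ct_sq (hm : Measurable φ) (hb : ∀ z, |φ z| ≤ 1) {R : ℝ} (hR : 0 ≤ R) :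
    ∫ z, ct φ R z * ct φ R z ≤ Real.pi * R ^ 2 := by
  have h1 : ∫ z, ct φ R z * ct φ R z ≤
      ∫ z : ℂ, (Metric.ball (0 : ℂ) R).indicator (fun _ => (1 : ℝ)) z := by
    refine integral_mono ((ct_memLp hm hb R).integrable_mul (ct_memLp hm hb R))
      (integrable_ball_indicator R 1) ?_
    intro z
    change ct φ R z * ct φ R z ≤ (Metric.ball (0 : ℂ) R).indicator (fun _ => (1 : ℝ)) z
    by_cases h : ‖z‖ < R
    · have hz : z ∈ Metric.ball (0 : ℂ) R := by simpa using h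
      rw [Set.indicator_of_mem hz]
      have := abs_le.1 (ct_abs_le hb R z)
      nlinarith
    · have hz : z ∉ Metric.ball (0 : ℂ) R := by simpa using h
      rw [Set.indicator_of_notMem hz, ct_out φ h]
      simp
  rw [integral_ball_indicator hR, mul_one] at h1
  exact h1

lemma ct_shift_memLp (hm : Measurable φ) (hb : ∀ z, |φ z| ≤ 1) (R : ℝ) (a : ℂ) :
    MemLp (fun z => ct φ R (z + a)) 2 volume :=
  (ct_memLp hm hb R).comp_measurePreserving (measurePreserving_add_right volume a)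

lemma ct_mul_integrable (hm : Measurable φ) (hb : ∀ z, |φ z| ≤ 1) (R : ℝ) (a b : ℂ) :
    Integrable (fun z => ct φ R (z + a) * ct φ R (z + b)) :=
  (ct_shift_memLp hm hb R a).integrable_mul (ct_shift_memLp hm hb R b)

/-- pointwise bound -/
lemma tri_pt (hb : ∀ z, |φ z| ≤ 1) {ρ R : ℝ} (hρ : 0 ≤ ρ) (a b : ℂ)
    (ha : ‖a‖ = ρ) (hbn : ‖b‖ = ρ) (z : ℂ)
    (hz : φ z * φ (z + a) + φ z * φ (z + b) + φ (z + a) * φ (z + b) = -1) :
    ct φ R (z + 0) * ct φ R (z + a) + ct φ R (z + 0) * ct φ R (z + b)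
      + ct φ R (z + a) * ct φ R (z + b) ≤
    (Metric.ball (0 : ℂ) (R + ρ)).indicator (fun _ => (3 : ℝ)) z +
      (Metric.ball (0 : ℂ) (R - ρ)).indicator (fun _ => (-4 : ℝ)) z := by
  rw [add_zero]
  by_cases h1 : ‖z‖ < R - ρ
  · have hz1 : z ∈ Metric.ball (0 : ℂ) (R - ρ) := by simpa using h1
    have hz2 : z ∈ Metric.ball (0 : ℂ) (R + ρ) := by
      have : ‖z‖ < R + ρ := by linarith
      simpa using this
    rw [Set.indicator_of_mem hz1, Set.indicator_of_mem hz2]
    have e1 : ‖z‖ < R := by linarith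
    have e2 : ‖z + a‖ < R := by
      have := norm_add_le z a
      linarith
    have e3 : ‖z + b‖ < R := by
      have := norm_add_le z b
      linarith
    rw [ct_in φ e1, ct_in φ e2, ct_in φ e3, hz]
    norm_num
  · have hz1 : z ∉ Metric.ball (0 : ℂ) (R - ρ) := by simpa using h1
    rw [Set.indicator_of_notMem hz1, add_zero]
    by_cases h2 : ‖z‖ < R + ρ
    · have hz2 : z ∈ Metric.ball (0 : ℂ) (R + ρ) := by simpa using h2
      rw [Set.indicator_of_mem hz2]
      have key : ∀ u v : ℂ, ct φ R u * ct φ R v ≤ 1 := by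
        intro u v
        calc ct φ R u * ct φ R v ≤ |ct φ R u * ct φ R v| := le_abs_self _
          _ = |ct φ R u| * |ct φ R v| := abs_mul _ _
          _ ≤ 1 * 1 := mul_le_mul (ct_abs_le hb R u) (ct_abs_le hb R v) (abs_nonneg _) zero_le_one
          _ = 1 := one_mul 1
      have := key z (z + a)
      have := key z (z + b)
      have := key (z + a) (z + b)
      linarith
    · have hz2 : z ∉ Metric.ball (0 : ℂ) (R + ρ) := by simpa using h2
      rw [Set.indicator_of_notMem hz2]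
      have e1 : ¬ ‖z‖ < R := by
        intro h
        exact h2 (by linarith)
      have e2 : ¬ ‖z + a‖ < R := by
        intro h
        have : ‖z‖ ≤ ‖z + a‖ + ‖a‖ := by
          calc ‖z‖ = ‖(z + a) - a‖ := by congr 1; ring
            _ ≤ _ := norm_sub_le _ _
        exact h2 (by linarith)
      rw [ct_out φ e1, ct_out φ e2]
      simp

lemma one_tri (hm : Measurable φ) (hb : ∀ z, |φ z| ≤ 1) {ρ R : ℝ}
    (hρ : 0 < ρ) (hR : ρ ≤ R) (t : ℝ)
    (hrel : ∀ᵐ z : ℂ, φ z * φ (z + (ρ : ℂ) * exp (t * I)) +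
      φ z * φ (z + (ρ : ℂ) * exp ((t + Real.pi / 3 : ℝ) * I)) +
      φ (z + (ρ : ℂ) * exp (t * I)) * φ (z + (ρ : ℂ) * exp ((t + Real.pi / 3 : ℝ) * I)) = -1) :
    (∫ z, ct φ R z * ct φ R (z + (ρ : ℂ) * exp (t * I)))
      + (∫ z, ct φ R z * ct φ R (z + (ρ : ℂ) * exp ((t + Real.pi / 3 : ℝ) * I)))
      + (∫ z, ct φ R z * ct φ R (z + (ρ : ℂ) * exp ((t + 2 * Real.pi / 3 : ℝ) * I)))
      ≤ -(Real.pi * R ^ 2) + 14 * Real.pi * ρ * R := by
  set a : ℂ := (ρ : ℂ) * exp (t * I) with ha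
  set b : ℂ := (ρ : ℂ) * exp ((t + Real.pi / 3 : ℝ) * I) with hbd
  set d : ℂ := (ρ : ℂ) * exp ((t + 2 * Real.pi / 3 : ℝ) * I) with hd
  have hnorm : ∀ s : ℝ, ‖(ρ : ℂ) * exp (s * I)‖ = ρ := by
    intro s
    rw [norm_mul, Complex.norm_exp_ofReal_mul_I, mul_one, Complex.norm_real, Real.norm_eq_abs,
      abs_of_pos hρ]
  have hda : b - a = d := by
    have h1 : exp ((Real.pi / 3 : ℝ) * I) = 1 / 2 + (Real.sqrt 3 / 2 : ℝ) * I := by
      rw [Complex.exp_mul_I, ← Complex.ofReal_cos, ← Complex.ofReal_sin, Real.cos_pi_div_three,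
        Real.sin_pi_div_three]
      push_cast
      ring
    have h2 : exp ((2 * Real.pi / 3 : ℝ) * I) = -(1 / 2) + (Real.sqrt 3 / 2 : ℝ) * I := by
      have e : 2 * Real.pi / 3 = Real.pi - Real.pi / 3 := by ring
      rw [Complex.exp_mul_I, ← Complex.ofReal_cos, ← Complex.ofReal_sin, e, Real.cos_pi_sub,
        Real.sin_pi_sub, Real.cos_pi_div_three, Real.sin_pi_div_three]
      push_cast
      ring
    rw [hbd, ha, hd, Complex.ofReal_add, Complex.ofReal_add, add_mul, add_mul, Complex.exp_add,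
      Complex.exp_add, h1, h2]
    ring
  have h3 : (∫ z, ct φ R z * ct φ R (z + d)) = ∫ z, ct φ R (z + a) * ct φ R (z + b) := by
    rw [← integral_add_right_eq_self (fun z => ct φ R z * ct φ R (z + d)) a]
    congr 1
    funext z
    congr 2
    rw [← hda]
    ring
  rw [h3]
  have hi1 : Integrable (fun z => ct φ R (z + 0) * ct φ R (z + a)) :=
    ct_mul_integrable hm hb R 0 a
  have hi2 : Integrable (fun z => ct φ R (z + 0) * ct φ R (z + b)) :=
    ct_mul_integrable hm hb R 0 b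
  have hi3 : Integrable (fun z => ct φ R (z + a) * ct φ R (z + b)) :=
    ct_mul_integrable hm hb R a b
  have hi12 : Integrable (fun z => ct φ R (z + 0) * ct φ R (z + a) +
      ct φ R (z + 0) * ct φ R (z + b)) := hi1.add hi2
  have hj1 : Integrable (fun z : ℂ => (Metric.ball (0 : ℂ) (R + ρ)).indicator (fun _ => (3:ℝ)) z) :=
    integrable_ball_indicator _ _
  have hj2 : Integrable (fun z : ℂ => (Metric.ball (0 : ℂ) (R - ρ)).indicator
      (fun _ => (-4:ℝ)) z) := integrable_ball_indicator _ _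
  have key : (∫ z, (ct φ R (z + 0) * ct φ R (z + a) + ct φ R (z + 0) * ct φ R (z + b)
      + ct φ R (z + a) * ct φ R (z + b))) ≤
    ∫ z, ((Metric.ball (0 : ℂ) (R + ρ)).indicator (fun _ => (3 : ℝ)) z +
      (Metric.ball (0 : ℂ) (R - ρ)).indicator (fun _ => (-4 : ℝ)) z) := by
    refine integral_mono_ae (hi12.add hi3) (hj1.add hj2) ?_
    filter_upwards [hrel] with z hz
    exact tri_pt hb hρ.le a b (hnorm _) (hnorm _) z hz
  rw [integral_add hi12 hi3, integral_add hi1 hi2, integral_add hj1 hj2,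
    integral_ball_indicator (by linarith), integral_ball_indicator (by linarith)] at key
  simp only [add_zero] at key
  refine key.trans ?_
  have : 0 ≤ Real.pi * ρ ^ 2 := by positivity
  nlinarith

lemma avg (hm : Measurable φ) (hb : ∀ z, |φ z| ≤ 1) {ρ R : ℝ}
    (hρ : 0 < ρ) (hR : ρ ≤ R)
    (hrel : ∀ᵐ t : ℝ, ∀ᵐ z : ℂ, φ z * φ (z + (ρ : ℂ) * exp (t * I)) +
      φ z * φ (z + (ρ : ℂ) * exp ((t + Real.pi / 3 : ℝ) * I)) +
      φ (z + (ρ : ℂ) * exp (t * I)) * φ (z + (ρ : ℂ) * exp ((t + Real.pi / 3 : ℝ) * I)) = -1)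
    (hc : Continuous fun v : ℂ => ∫ z, ct φ R z * ct φ R (z + v)) :
    (1 / (2 * Real.pi)) * (∫ t in (0 : ℝ)..(2 * Real.pi),
        ∫ z, ct φ R z * ct φ R (z + (ρ : ℂ) * exp (t * I)))
      ≤ -(Real.pi * R ^ 2) / 3 + 5 * Real.pi * ρ * R := by
  set g : ℝ → ℝ := fun t => ∫ z, ct φ R z * ct φ R (z + (ρ : ℂ) * exp (t * I)) with hg
  have hgc : Continuous g := hc.comp (by fun_prop : Continuous fun t : ℝ =>
    (ρ : ℂ) * exp (t * I))
  have hper : Function.Periodic g (2 * Real.pi) := by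
    intro t
    simp only [hg]
    have : exp (((t + 2 * Real.pi : ℝ) : ℂ) * I) = exp (t * I) := by
      push_cast
      rw [add_mul, Complex.exp_add, Complex.exp_two_pi_mul_I, mul_one]
    rw [this]
  have hshift : ∀ s : ℝ, ∫ t in (0:ℝ)..(2 * Real.pi), g (t + s) =
      ∫ t in (0:ℝ)..(2 * Real.pi), g t := by
    intro s
    rw [intervalIntegral.integral_comp_add_right, zero_add, add_comm (2 * Real.pi) s]
    have := hper.intervalIntegral_add_eq s 0
    rw [zero_add] at this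
    exact this
  have hi : ∀ s : ℝ, IntervalIntegrable (fun t => g (t + s)) volume 0 (2 * Real.pi) := by
    intro s
    exact (hgc.comp (continuous_id.add continuous_const)).intervalIntegrable _ _
  have key : ∫ t in (0:ℝ)..(2 * Real.pi), (g (t + 0) + g (t + Real.pi / 3) +
      g (t + 2 * Real.pi / 3)) ≤ ∫ t in (0:ℝ)..(2 * Real.pi),
        (-(Real.pi * R ^ 2) + 14 * Real.pi * ρ * R) := by
    refine intervalIntegral.integral_mono_ae (by positivity)
      (((hi 0).add (hi _)).add (hi _)) intervalIntegrable_const ?_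
    filter_upwards [hrel] with t ht
    have := one_tri hm hb hρ hR t ht
    simpa [hg] using this
  have h12 : IntervalIntegrable (fun t => g (t + 0) + g (t + Real.pi / 3)) volume 0
      (2 * Real.pi) := (hi 0).add (hi _)
  rw [intervalIntegral.integral_add h12 (hi _),
    intervalIntegral.integral_add (hi 0) (hi _), hshift, hshift, hshift,
    intervalIntegral.integral_const] at key
  simp only [smul_eq_mul, sub_zero] at key
  have hpi := Real.pi_pos
  set J := ∫ t in (0:ℝ)..(2 * Real.pi), g t with hJ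
  have h1 : (1 / (2 * Real.pi)) * (3 * J) ≤ -(Real.pi * R ^ 2) + 14 * Real.pi * ρ * R := by
    rw [one_div, inv_mul_le_iff₀ (by positivity)]
    linarith
  have h2 : 0 ≤ Real.pi * ρ * R := by
    have : 0 ≤ R := by linarith
    positivity
  nlinarith

lemma rel_swap (hm : Measurable φ) {ρ : ℝ} (h : Rel φ (ρ : ℂ) ((ρ : ℂ) * cis (Real.pi / 3))) :
    ∀ᵐ t : ℝ, ∀ᵐ z : ℂ, φ z * φ (z + (ρ : ℂ) * exp (t * I)) +
      φ z * φ (z + (ρ : ℂ) * exp ((t + Real.pi / 3 : ℝ) * I)) +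
      φ (z + (ρ : ℂ) * exp (t * I)) * φ (z + (ρ : ℂ) * exp ((t + Real.pi / 3 : ℝ) * I)) = -1 := by
  have e : ∀ t : ℝ, (ρ : ℂ) * cis (Real.pi / 3) * cis t =
      (ρ : ℂ) * exp ((t + Real.pi / 3 : ℝ) * I) := by
    intro t
    unfold cis
    rw [mul_assoc, ← Complex.exp_add]
    congr 2
    push_cast
    ring
  unfold Rel at h
  simp only [e] at h
  simp only [cis] at h
  have hmeas : Measurable fun p : ℂ × ℝ => φ p.1 * φ (p.1 + (ρ : ℂ) * exp (p.2 * I)) +
      φ p.1 * φ (p.1 + (ρ : ℂ) * exp ((p.2 + Real.pi / 3 : ℝ) * I)) +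
      φ (p.1 + (ρ : ℂ) * exp (p.2 * I)) *
        φ (p.1 + (ρ : ℂ) * exp ((p.2 + Real.pi / 3 : ℝ) * I)) := by
    have m1 : Measurable fun p : ℂ × ℝ => φ p.1 := hm.comp measurable_fst
    have m2 : Measurable fun p : ℂ × ℝ => φ (p.1 + (ρ : ℂ) * exp (p.2 * I)) :=
      hm.comp (by fun_prop)
    have m3 : Measurable fun p : ℂ × ℝ => φ (p.1 + (ρ : ℂ) * exp ((p.2 + Real.pi / 3 : ℝ) * I)) :=
      hm.comp (by fun_prop)
    exact ((m1.mul m2).add (m1.mul m3)).add (m2.mul m3)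
  have hset : MeasurableSet {p : ℂ × ℝ | φ p.1 * φ (p.1 + (ρ : ℂ) * exp (p.2 * I)) +
      φ p.1 * φ (p.1 + (ρ : ℂ) * exp ((p.2 + Real.pi / 3 : ℝ) * I)) +
      φ (p.1 + (ρ : ℂ) * exp (p.2 * I)) *
        φ (p.1 + (ρ : ℂ) * exp ((p.2 + Real.pi / 3 : ℝ) * I)) = -1} :=
    hmeas (measurableSet_singleton _)
  exact (Measure.ae_ae_comm hset).1 h

end LargeAux

open LargeAux in
/-- **§12.** -/
theorem adm_large {φ : ℂ → ℝ} {r : ℝ} (h : Adm φ r) (h2 : 2 ≤ r) : False := by
  have hm : ∀ x : ℝ, 0 ≤ x → 0 ≤ 0.666 + J0 x + J0 (r * x) := by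
    intro x hx
    have := bessel_lower (x := x) (y := r * x) hx (by nlinarith)
    linarith
  set R : ℝ := max r (8000 * (1 + r)) with hRdef
  have hRr : r ≤ R := le_max_left _ _
  have hR1 : 8000 * (1 + r) ≤ R := le_max_right _ _
  have hR0 : 0 < R := by linarith
  have hmem := ct_memLp h.meas h.bound R
  have hpos := l2_pos hmem (r := r) (m := 0.666) (by linarith) hm
  have hsq := ct_sq h.meas h.bound hR0.le
  have hside : ∀ ρ : ℝ, 0 < ρ → (ρ = 1 ∨ ρ = r) →
      Rel φ (ρ : ℂ) ((ρ : ℂ) * cis (Real.pi / 3)) := by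
    intro ρ hρ hρr
    have n1 : ‖(ρ : ℂ)‖ = ρ := by
      rw [Complex.norm_real, Real.norm_eq_abs, abs_of_pos hρ]
    have n2 : ‖(ρ : ℂ) * cis (Real.pi / 3)‖ = ρ := by
      rw [norm_mul, n1]
      unfold cis
      rw [Complex.norm_exp_ofReal_mul_I, mul_one]
    have n3 : ‖(ρ : ℂ) - (ρ : ℂ) * cis (Real.pi / 3)‖ = ρ := by
      have e : (ρ : ℂ) - (ρ : ℂ) * cis (Real.pi / 3) = (ρ : ℂ) * exp ((-(Real.pi / 3) : ℝ) * I) := by
        unfold cis
        rw [Complex.exp_mul_I, Complex.exp_mul_I, ← Complex.ofReal_cos, ← Complex.ofReal_sin,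
          ← Complex.ofReal_cos, ← Complex.ofReal_sin, Real.cos_neg, Real.sin_neg,
          Real.cos_pi_div_three]
        push_cast
        ring
      rw [e, norm_mul, n1, Complex.norm_exp_ofReal_mul_I, mul_one]
    refine h.rel _ _ ?_ ?_ ?_
    · rw [n1]; exact hρr
    · rw [n2]; exact hρr
    · rw [n3]; exact hρr
  have h1 := avg h.meas h.bound (ρ := 1) (R := R) one_pos (by linarith)
    (rel_swap h.meas (hside 1 one_pos (Or.inl rfl))) (continuous_corr hmem)
  have h3 := avg h.meas h.bound (ρ := r) (R := R) (by linarith) hRr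
    (rel_swap h.meas (hside r (by linarith) (Or.inr rfl))) (continuous_corr hmem)
  simp only [Complex.ofReal_one, one_mul] at h1
  have hpi := Real.pi_pos
  have key : 0 ≤ Real.pi * R * ((0.666 - 2 / 3) * R + 5 * (1 + r)) := by nlinarith
  have hneg : (0.666 - 2 / 3) * R + 5 * (1 + r) < 0 := by nlinarith
  have : Real.pi * R * ((0.666 - 2 / 3) * R + 5 * (1 + r)) < 0 :=
    mul_neg_of_pos_of_neg (mul_pos hpi hR0) hneg
  linarith

end Pool.Agent.Lib.P3852H
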