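import Mathlib
import Pool.Agent.Lib.P3852H.Rel
import Pool.Agent.Lib.P3852L.PartC

/-!
# There is no admissible function for `1 < r < 2`

Let `G` be the colouring by the sign of `φ`: for almost every point `y` and almost every direction the
triangles with sides in `{1, r}` and vertex `y` are not monochromatic. For EVERY point `y` the triangles
with a vertex `y` and the two other vertices of equal colour have positive measure (`type0`); let `ft y`
be the colour which they force. Then `ft = G` almost everywhere and, for every `z`, the traces of `ft`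
on the circles of radius `1` and `r` about `z'` tend in measure to those about `z` when `z'` tends to
`z`. At a point `z` which is a limit of generic points of both colours the traces contradict `type0`.
-/

set_option autoImplicit false

namespace Pool.Agent.Lib.P3852H

open MeasureTheory Set Topology Filter Pool.Agent.Lib.P3852e9 Pool.Agent.Lib.P3852L

/-- The data: `G` is measurable and has almost no monochromatic triangle with sides in `{1, r}`. -/
structure AData (G : ℂ → Bool) (r g g' : ℝ) : Prop where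
  hG : Measurable G
  r1 : 1 < r
  hg : Real.cos g = r / 2
  hg' : Real.cos g' = 1 / (2 * r)
  g0 : 0 < g
  gg : g < g'
  g2 : g' < Real.pi / 2
  rel : ∀ i : Fin 4, ∀ᵐ y : ℂ, ∀ᵐ β : ℝ, ¬ (G (y + (rad r i : ℂ) * cis β) = G y ∧
    G (y + ((1 : ℝ) : ℂ) * cis (β + ang g g' i)) = G y)

namespace SmallAux

variable {G : ℂ → Bool} {r g g' : ℝ}

/-- The measure of the directions which force the colour `!c` at `y`. -/
noncomputable def mm (G : ℂ → Bool) (r g g' : ℝ) (c : Bool) (y : ℂ) : ENNReal :=
  ∑ i : Fin 4, nu {β | G (y + (rad r i : ℂ) * cis β) = c ∧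
    G (y + ((1 : ℝ) : ℂ) * cis (β + ang g g' i)) = c}

/-- The forced colour. -/
noncomputable def ft (G : ℂ → Bool) (r g g' : ℝ) (y : ℂ) : Bool := by
  classical exact decide (0 < mm G r g g' false y)

lemma ft_true {y : ℂ} : ft G r g g' y = true ↔ 0 < mm G r g g' false y := by
  unfold ft
  exact decide_eq_true_iff

lemma mc_eq (s : ℝ) (z : ℂ) (c : Bool) (α : ℝ) :
    mc G r g g' s z c α = mm G r g g' c (z + (s : ℂ) * cis α) := by
  unfold mc mm
  refine Finset.sum_congr rfl fun i _ => ?_
  congr 1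
  ext β
  change (G (P1 r s z i (α, β)) = c ∧ G (P2 g g' s z i (α, β)) = c) ↔ _
  rw [P1_eq, P2_eq]
  exact Iff.rfl

lemma measurable_mm (hG : Measurable G) (c : Bool) : Measurable (mm G r g g' c) := by
  have hc := continuous_cis
  unfold mm
  refine Finset.measurable_sum _ fun i _ => ?_
  have h1 : Measurable fun p : ℂ × ℝ => G (p.1 + (rad r i : ℂ) * cis p.2) :=
    hG.comp (by fun_prop : Continuous fun p : ℂ × ℝ => p.1 + (rad r i : ℂ) * cis p.2).measurable
  have h2 : Measurable fun p : ℂ × ℝ => G (p.1 + ((1 : ℝ) : ℂ) * cis (p.2 + ang g g' i)) :=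
    hG.comp (by fun_prop : Continuous fun p : ℂ × ℝ =>
      p.1 + ((1 : ℝ) : ℂ) * cis (p.2 + ang g g' i)).measurable
  have h3 : MeasurableSet {p : ℂ × ℝ | G (p.1 + (rad r i : ℂ) * cis p.2) = c ∧
      G (p.1 + ((1 : ℝ) : ℂ) * cis (p.2 + ang g g' i)) = c} :=
    (h1 (measurableSet_singleton c)).inter (h2 (measurableSet_singleton c))
  exact measurable_measure_prodMk_left h3

/-- There always are forcing directions. -/
lemma mm_pos (D : AData G r g g') (y : ℂ) : 0 < mm G r g g' true y + mm G r g g' false y := by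
  have hc := continuous_cis
  by_contra hcon
  have h0 : mm G r g g' true y + mm G r g g' false y = 0 := by
    rwa [not_lt, nonpos_iff_eq_zero] at hcon
  rw [add_eq_zero] at h0
  unfold mm at h0
  rw [Finset.sum_eq_zero_iff, Finset.sum_eq_zero_iff] at h0
  obtain ⟨ht, hf⟩ := h0
  have key : ∀ i : Fin 4, ∀ᵐ β : ℝ,
      G (y + (rad r i : ℂ) * cis β) ≠ G (y + ((1 : ℝ) : ℂ) * cis (β + ang g g' i)) := by
    intro i
    have h1 := ht i (Finset.mem_univ i)
    have h2 := hf i (Finset.mem_univ i)
    have h3 : ∀ᵐ β ∂nu, G (y + (rad r i : ℂ) * cis β)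
        ≠ G (y + ((1 : ℝ) : ℂ) * cis (β + ang g g' i)) := by
      filter_upwards [measure_eq_zero_iff_ae_notMem.1 h1, measure_eq_zero_iff_ae_notMem.1 h2]
        with β b1 b2 heq
      have c1 : ¬ (G (y + (rad r i : ℂ) * cis β) = true ∧
        G (y + ((1 : ℝ) : ℂ) * cis (β + ang g g' i)) = true) := b1
      have c2 : ¬ (G (y + (rad r i : ℂ) * cis β) = false ∧
        G (y + ((1 : ℝ) : ℂ) * cis (β + ang g g' i)) = false) := b2
      rw [heq] at c1 c2
      cases h : G (y + ((1 : ℝ) : ℂ) * cis (β + ang g g' i))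
      · exact c2 ⟨h, h⟩
      · exact c1 ⟨h, h⟩
    refine ae_of_nu (fun t => ?_) h3
    rw [cis_add_two_pi, show t + 2 * Real.pi + ang g g' i = t + ang g g' i + 2 * Real.pi by ring,
      cis_add_two_pi]
  have k0 := key 0
  have k1 := key 1
  have k2 := key 2
  have k3 := key 3
  simp only [rad, ang, Matrix.cons_val_zero, Matrix.cons_val_one, Matrix.cons_val] at k0 k1 k2 k3
  refine type0 (F := fun t => G (y + ((1 : ℝ) : ℂ) * cis t)) (H := fun t => G (y + (r : ℂ) * cis t))
    (r := r) (g := g) (g' := g') ?_ ?_ D.r1 D.hg D.hg' D.g0 D.gg D.g2 k0 k1 k2 k3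
  · have : Measurable fun t : ℝ => G (y + ((1 : ℝ) : ℂ) * cis t) :=
      D.hG.comp (by fun_prop : Continuous fun t : ℝ => y + ((1 : ℝ) : ℂ) * cis t).measurable
    exact (this (measurableSet_singleton true)).nullMeasurableSet
  · intro t
    rw [cis_add_two_pi]

/-- At almost every point the colour is not contradicted by a triangle. -/
lemma ae_mm (D : AData G r g g') : ∀ᵐ y : ℂ, mm G r g g' (G y) y = 0 := by
  filter_upwards [ae_all_iff.2 D.rel] with y hy
  unfold mm
  refine Finset.sum_eq_zero fun i _ => ?_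
  rw [measure_eq_zero_iff_ae_notMem]
  filter_upwards [nu_ae_of_ae (hy i)] with β hβ hin
  exact hβ hin

/-- The forced colour is the colour almost everywhere. -/
lemma ae_ft (D : AData G r g g') : ∀ᵐ y : ℂ, ft G r g g' y = G y := by
  filter_upwards [ae_mm D] with y hy
  have hp := mm_pos D y
  cases h : G y
  · rw [h] at hy
    by_contra hcon
    rw [Bool.not_eq_false, ft_true, hy] at hcon
    exact lt_irrefl _ hcon
  · rw [h] at hy
    rw [hy, zero_add] at hp
    exact ft_true.2 hp

/-- A point at which one colour is forced only. -/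
def OK (G : ℂ → Bool) (r g g' : ℝ) (y : ℂ) : Prop :=
  min (mm G r g g' true y) (mm G r g g' false y) = 0

lemma ae_OK (D : AData G r g g') : ∀ᵐ y : ℂ, OK G r g g' y := by
  filter_upwards [ae_mm D] with y hy
  unfold OK
  cases h : G y
  · rw [h] at hy
    rw [hy]
    exact min_eq_right zero_le
  · rw [h] at hy
    rw [hy]
    exact min_eq_left zero_le

lemma measurable_min (hG : Measurable G) :
    Measurable fun y => min (mm G r g g' true y) (mm G r g g' false y) :=
  (measurable_mm hG true).min (measurable_mm hG false)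

/-- For almost every centre, almost all the points of the circle are `OK`. -/
lemma ae_ae_OK (D : AData G r g g') (s : ℝ) :
    ∀ᵐ z : ℂ, ∀ᵐ α ∂nu, OK G r g g' (z + (s : ℂ) * cis α) := by
  have hc := continuous_cis
  have hset : MeasurableSet {p : ℂ × ℝ | OK G r g g' (p.1 + (s : ℂ) * cis p.2)} := by
    have h1 : Measurable fun p : ℂ × ℝ => min (mm G r g g' true (p.1 + (s : ℂ) * cis p.2))
        (mm G r g g' false (p.1 + (s : ℂ) * cis p.2)) :=
      (measurable_min D.hG).comp
        (by fun_prop : Continuous fun p : ℂ × ℝ => p.1 + (s : ℂ) * cis p.2).measurable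
    exact h1 (measurableSet_singleton 0)
  refine (Measure.ae_ae_comm (μ := (volume : Measure ℂ)) (ν := nu) hset).2 ?_
  refine ae_of_all _ fun α => ?_
  exact (measurePreserving_add_right (volume : Measure ℂ) ((s : ℂ) * cis α)).quasiMeasurePreserving.ae
    (ae_OK D)

lemma mc_le (s : ℝ) (z z' : ℂ) (c : Bool) (α : ℝ) :
    mc G r g g' s z c α ≤ mc G r g g' s z' c α + dd G r g g' s z z' α := by
  unfold mc dd
  rw [← Finset.sum_add_distrib]
  refine Finset.sum_le_sum fun i _ => ?_
  have hsub : Prod.mk α ⁻¹' Ec G r g g' s z c i ⊆ Prod.mk α ⁻¹' Ec G r g g' s z' c i ∪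
      (Prod.mk α ⁻¹' W1 G r s z z' i ∪ Prod.mk α ⁻¹' W2 G g g' s z z' i) := by
    intro β hβ
    have hβ' : G (P1 r s z i (α, β)) = c ∧ G (P2 g g' s z i (α, β)) = c := hβ
    by_cases h1 : G (P1 r s z i (α, β)) = G (P1 r s z' i (α, β))
    · by_cases h2 : G (P2 g g' s z i (α, β)) = G (P2 g g' s z' i (α, β))
      · left
        change G (P1 r s z' i (α, β)) = c ∧ G (P2 g g' s z' i (α, β)) = c
        rw [← h1, ← h2]
        exact hβ'
      · exact Or.inr (Or.inr h2)
    · exact Or.inr (Or.inl h1)
  refine (measure_mono hsub).trans ((measure_union_le _ _).trans ?_)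
  gcongr
  exact measure_union_le _ _

/-- For EVERY centre, almost all the points of the circle are `OK`. -/
lemma all_OK (D : AData G r g g') {s : ℝ} (hs : 0 < s) (z : ℂ) :
    ∀ᵐ α ∂nu, OK G r g g' (z + (s : ℂ) * cis α) := by
  have hc := continuous_cis
  have hm : Measurable fun α : ℝ => min (mm G r g g' true (z + (s : ℂ) * cis α))
      (mm G r g g' false (z + (s : ℂ) * cis α)) :=
    (measurable_min D.hG).comp
      (by fun_prop : Continuous fun α : ℝ => z + (s : ℂ) * cis α).measurable
  have h0 : ∫⁻ α, min (mm G r g g' true (z + (s : ℂ) * cis α))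
      (mm G r g g' false (z + (s : ℂ) * cis α)) ∂nu = 0 := by
    rw [← nonpos_iff_eq_zero]
    refine le_of_forall_pos_le_add fun ε hε => ?_
    rw [zero_add]
    have h5 := ENNReal.tendsto_nhds_zero.1 (tendsto_dd (g := g) (g' := g') D.hG D.r1 hs z) ε hε
    have hd : Dense {z' : ℂ | ∀ᵐ α ∂nu, OK G r g g' (z' + (s : ℂ) * cis α)} :=
      Measure.dense_of_ae (ae_ae_OK D s)
    obtain ⟨z', hz', hz5⟩ := ((mem_closure_iff_frequently.1 (hd z)).and_eventually h5).exists
    refine le_trans (lintegral_mono_ae ?_) hz5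
    have hz'' : ∀ᵐ α ∂nu, OK G r g g' (z' + (s : ℂ) * cis α) := hz'
    filter_upwards [hz''] with α hα
    have e1 := mc_le (G := G) (r := r) (g := g) (g' := g') s z z' true α
    have e2 := mc_le (G := G) (r := r) (g := g) (g' := g') s z z' false α
    simp only [mc_eq] at e1 e2
    unfold OK at hα
    rcases le_total (mm G r g g' true (z' + (s : ℂ) * cis α))
        (mm G r g g' false (z' + (s : ℂ) * cis α)) with h | h
    · rw [min_eq_left h] at hα
      rw [hα, zero_add] at e1
      exact (min_le_left _ _).trans e1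
    · rw [min_eq_right h] at hα
      rw [hα, zero_add] at e2
      exact (min_le_right _ _).trans e2
  rw [lintegral_eq_zero_iff hm] at h0
  exact h0

lemma OK_ft {y : ℂ} (h : OK G r g g' y) : mm G r g g' (ft G r g g' y) y = 0 := by
  unfold OK at h
  cases hf : ft G r g g' y
  · have h1 : ¬ (0 < mm G r g g' false y) := by
      rw [← ft_true, hf]
      decide
    rwa [not_lt, nonpos_iff_eq_zero] at h1
  · have h1 := ft_true.1 hf
    rcases min_eq_bot.1 h with h2 | h2
    · exact h2
    · rw [h2] at h1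
      exact absurd h1 (lt_irrefl _)

/-- If the colour changes, then the forcing directions change. -/
lemma change (D : AData G r g g') {s : ℝ} (hs : 0 < s) (z z' : ℂ) :
    ∀ᵐ α ∂nu, ft G r g g' (z + (s : ℂ) * cis α) ≠ ft G r g g' (z' + (s : ℂ) * cis α) →
      mc G r g g' s z true α + mc G r g g' s z false α ≤ dd G r g g' s z z' α := by
  filter_upwards [all_OK D hs z, all_OK D hs z'] with α h1 h2 hne
  have e1 := mc_le (G := G) (r := r) (g := g) (g' := g') s z z' true α
  have e2 := mc_le (G := G) (r := r) (g := g) (g' := g') s z z' false α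
  have b1 := OK_ft h1
  have b2 := OK_ft h2
  rw [mc_eq, mc_eq] at e1 e2 ⊢
  cases c1 : ft G r g g' (z + (s : ℂ) * cis α) <;>
    cases c2 : ft G r g g' (z' + (s : ℂ) * cis α)
  · rw [c1, c2] at hne
    exact absurd rfl hne
  · rw [c1] at b1
    rw [c2] at b2
    rw [b1, add_zero]
    rwa [b2, zero_add] at e1
  · rw [c1] at b1
    rw [c2] at b2
    rw [b1, zero_add]
    rwa [b2, zero_add] at e2
  · rw [c1, c2] at hne
    exact absurd rfl hne

/-- **The circle traces are continuous in measure.** -/
lemma trace_tendsto (D : AData G r g g') {s : ℝ} (hs : 0 < s) (z : ℂ) :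
    Tendsto (fun z' => nu {α | ft G r g g' (z + (s : ℂ) * cis α) ≠
      ft G r g g' (z' + (s : ℂ) * cis α)}) (𝓝 z) (𝓝 0) := by
  set m : ℝ → ENNReal := fun α => mc G r g g' s z true α + mc G r g g' s z false α with hm
  have hmm : Measurable m := (measurable_mc D.hG s z true).add (measurable_mc D.hG s z false)
  have hmpos : ∀ α, 0 < m α := fun α => by
    rw [hm]
    simp only [mc_eq]
    exact mm_pos D _
  rw [ENNReal.tendsto_nhds_zero]
  intro ε hε
  -- the threshold
  obtain ⟨η, hη0, hηtop, hη⟩ : ∃ η : ENNReal, η ≠ 0 ∧ η ≠ ⊤ ∧ nu {α | m α ≤ η} ≤ ε / 2 := by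
    have h1 := tendsto_measure_iInter_atTop (μ := nu) (s := fun n : ℕ => {α | m α ≤ ((n : ENNReal) + 1)⁻¹})
      (fun n => (measurableSet_le hmm measurable_const).nullMeasurableSet)
      (by
        intro a b hab α hα
        have hα' : m α ≤ ((b : ENNReal) + 1)⁻¹ := hα
        change m α ≤ ((a : ENNReal) + 1)⁻¹
        refine hα'.trans (ENNReal.inv_le_inv.2 ?_)
        gcongr) ⟨0, measure_ne_top _ _⟩
    have h2 : (⋂ n : ℕ, {α | m α ≤ ((n : ENNReal) + 1)⁻¹}) = ∅ := by
      rw [Set.eq_empty_iff_forall_notMem]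
      intro α hα
      rw [Set.mem_iInter] at hα
      obtain ⟨n, hn⟩ := ENNReal.exists_inv_nat_lt (hmpos α).ne'
      have h3 : m α ≤ ((n : ENNReal) + 1)⁻¹ := hα n
      have h4 : ((n : ENNReal) + 1)⁻¹ ≤ (n : ENNReal)⁻¹ := ENNReal.inv_le_inv.2 le_self_add
      exact absurd (h3.trans h4) (not_le.2 hn)
    rw [h2, measure_empty, ENNReal.tendsto_nhds_zero] at h1
    obtain ⟨n, hn⟩ := (h1 (ε / 2) (ENNReal.half_pos hε.ne')).exists
    refine ⟨((n : ENNReal) + 1)⁻¹, ?_, ?_, hn⟩
    · rw [ne_eq, ENNReal.inv_eq_zero]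
      exact ENNReal.add_ne_top.2 ⟨ENNReal.natCast_ne_top n, ENNReal.one_ne_top⟩
    · rw [ne_eq, ENNReal.inv_eq_top]
      simp
  have h5 := (ENNReal.tendsto_nhds_zero.1 (tendsto_dd (g := g) (g' := g') D.hG D.r1 hs z)) (η * (ε / 2))
    (ENNReal.mul_pos hη0 (ENNReal.half_pos hε.ne').ne')
  filter_upwards [h5] with z' hz'
  have h6 : nu {α | η ≤ dd G r g g' s z z' α} ≤ ε / 2 := by
    have h7 := mul_meas_ge_le_lintegral (μ := nu) (measurable_dd (r := r) (g := g) (g' := g') D.hG s z z') η
    have h8 := h7.trans hz'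
    exact (ENNReal.mul_le_mul_iff_right hη0 hηtop).1 h8
  have h9 : nu {α | ft G r g g' (z + (s : ℂ) * cis α) ≠ ft G r g g' (z' + (s : ℂ) * cis α)} ≤
      nu ({α | m α ≤ η} ∪ {α | η ≤ dd G r g g' s z z' α}) := by
    apply measure_mono_ae
    filter_upwards [change D hs z z'] with α hα hin
    have h10 := hα hin
    rcases le_total (m α) η with h11 | h11
    · exact Or.inl h11
    · exact Or.inr (h11.trans h10)
  calc nu {α | ft G r g g' (z + (s : ℂ) * cis α) ≠ ft G r g g' (z' + (s : ℂ) * cis α)}
      ≤ nu ({α | m α ≤ η} ∪ {α | η ≤ dd G r g g' s z z' α}) := h9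
    _ ≤ nu {α | m α ≤ η} + nu {α | η ≤ dd G r g g' s z z' α} := measure_union_le _ _
    _ ≤ ε / 2 + ε / 2 := add_le_add hη h6
    _ = ε := ENNReal.add_halves ε

/-- The points at which the relations hold for `ft`. -/
def RelGood (G : ℂ → Bool) (r g g' : ℝ) (y : ℂ) : Prop :=
  ∀ i : Fin 4, ∀ᵐ β ∂nu, ¬ (ft G r g g' (y + (rad r i : ℂ) * cis β) = ft G r g g' y ∧
    ft G r g g' (y + ((1 : ℝ) : ℂ) * cis (β + ang g g' i)) = ft G r g g' y)

/-- An almost everywhere statement on circles. -/
lemma ae_circ {P : ℂ → Prop} (h : ∀ᵐ y : ℂ, P y) (s δ : ℝ) :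
    ∀ᵐ z : ℂ, ∀ᵐ α ∂nu, P (z + (s : ℂ) * cis (α + δ)) := by
  have hc := continuous_cis
  set N : Set ℂ := toMeasurable volume {y | ¬ P y} with hN
  have hNm : MeasurableSet N := measurableSet_toMeasurable _ _
  have hN0 : volume N = 0 := by rw [hN, measure_toMeasurable]; exact h
  have hset : MeasurableSet {p : ℂ × ℝ | p.1 + (s : ℂ) * cis (p.2 + δ) ∈ Nᶜ} :=
    hNm.compl.preimage
      (by fun_prop : Continuous fun p : ℂ × ℝ => p.1 + (s : ℂ) * cis (p.2 + δ)).measurable
  have h1 : ∀ᵐ z : ℂ, ∀ᵐ α ∂nu, z + (s : ℂ) * cis (α + δ) ∈ Nᶜ := by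
    refine (Measure.ae_ae_comm (μ := (volume : Measure ℂ)) (ν := nu) hset).2 ?_
    refine ae_of_all _ fun α => ?_
    exact (measurePreserving_add_right (volume : Measure ℂ)
      ((s : ℂ) * cis (α + δ))).quasiMeasurePreserving.ae (measure_eq_zero_iff_ae_notMem.1 hN0)
  filter_upwards [h1] with z hz
  filter_upwards [hz] with α hα
  by_contra hcon
  exact hα (subset_toMeasurable _ _ hcon)

lemma ae_relGood (D : AData G r g g') : ∀ᵐ y : ℂ, RelGood G r g g' y := by
  unfold RelGood
  rw [ae_all_iff]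
  intro i
  filter_upwards [D.rel i, ae_ft D, ae_circ (ae_ft D) (rad r i) 0,
    ae_circ (ae_ft D) 1 (ang g g' i)] with y h1 h2 h3 h4
  filter_upwards [nu_ae_of_ae h1, h3, h4] with β b1 b2 b3
  rw [add_zero] at b2
  rw [b2, b3, h2]
  exact b1

/-- At a limit of good points of both colours the relations hold. -/
lemma relAt (D : AData G r g g') {z : ℂ}
    (hz : ∀ c : Bool, z ∈ closure {w | ft G r g g' w = c ∧ RelGood G r g g' w}) (i : Fin 4) :
    ∀ᵐ t : ℝ, ft G r g g' (z + (rad r i : ℂ) * cis t) ≠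
      ft G r g g' (z + ((1 : ℝ) : ℂ) * cis (t + ang g g' i)) := by
  have key : ∀ c : Bool,
      nu {t | ft G r g g' (z + (rad r i : ℂ) * cis t) = c ∧
        ft G r g g' (z + ((1 : ℝ) : ℂ) * cis (t + ang g g' i)) = c} = 0 := by
    intro c
    rw [← nonpos_iff_eq_zero]
    refine le_of_forall_pos_le_add fun ε hε => ?_
    rw [zero_add]
    have hε3 : 0 < ε / 3 := ENNReal.div_pos hε.ne' (by norm_num)
    have t1 := ENNReal.tendsto_nhds_zero.1 (trace_tendsto D (rad_pos D.r1 i) z) (ε / 3) hε3
    have t2 := ENNReal.tendsto_nhds_zero.1 (trace_tendsto D one_pos z) (ε / 3) hε3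
    obtain ⟨z', ⟨hfz', hgood⟩, hz1, hz2⟩ :=
      ((mem_closure_iff_frequently.1 (hz c)).and_eventually (t1.and t2)).exists
    have hnull : nu {t | ft G r g g' (z' + (rad r i : ℂ) * cis t) = c ∧
        ft G r g g' (z' + ((1 : ℝ) : ℂ) * cis (t + ang g g' i)) = c} = 0 := by
      rw [measure_eq_zero_iff_ae_notMem]
      filter_upwards [hgood i] with β hβ hin
      rw [hfz'] at hβ
      exact hβ hin
    have hsub : {t | ft G r g g' (z + (rad r i : ℂ) * cis t) = c ∧
        ft G r g g' (z + ((1 : ℝ) : ℂ) * cis (t + ang g g' i)) = c} ⊆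
        {t | ft G r g g' (z' + (rad r i : ℂ) * cis t) = c ∧
          ft G r g g' (z' + ((1 : ℝ) : ℂ) * cis (t + ang g g' i)) = c} ∪
        ({t | ft G r g g' (z + (rad r i : ℂ) * cis t) ≠
            ft G r g g' (z' + (rad r i : ℂ) * cis t)} ∪
        {t | ft G r g g' (z + ((1 : ℝ) : ℂ) * cis (t + ang g g' i)) ≠
          ft G r g g' (z' + ((1 : ℝ) : ℂ) * cis (t + ang g g' i))}) := by
      rintro t ⟨h1, h2⟩
      by_contra hcon
      rw [mem_union, not_or, mem_union, not_or] at hcon
      obtain ⟨n0, n1, n2⟩ := hcon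
      have n1' : ft G r g g' (z + (rad r i : ℂ) * cis t) =
          ft G r g g' (z' + (rad r i : ℂ) * cis t) := by
        by_contra h; exact n1 h
      have n2' : ft G r g g' (z + ((1 : ℝ) : ℂ) * cis (t + ang g g' i)) =
          ft G r g g' (z' + ((1 : ℝ) : ℂ) * cis (t + ang g g' i)) := by
        by_contra h; exact n2 h
      apply n0
      exact ⟨n1' ▸ h1, n2' ▸ h2⟩
    have hrot := nu_rot (P := fun t => ft G r g g' (z + ((1 : ℝ) : ℂ) * cis t) ≠
      ft G r g g' (z' + ((1 : ℝ) : ℂ) * cis t)) (fun t => by rw [cis_add_two_pi]) (ang g g' i)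
    calc nu {t | ft G r g g' (z + (rad r i : ℂ) * cis t) = c ∧
          ft G r g g' (z + ((1 : ℝ) : ℂ) * cis (t + ang g g' i)) = c}
        ≤ nu {t | ft G r g g' (z' + (rad r i : ℂ) * cis t) = c ∧
            ft G r g g' (z' + ((1 : ℝ) : ℂ) * cis (t + ang g g' i)) = c} +
          (nu {t | ft G r g g' (z + (rad r i : ℂ) * cis t) ≠
              ft G r g g' (z' + (rad r i : ℂ) * cis t)} +
          nu {t | ft G r g g' (z + ((1 : ℝ) : ℂ) * cis (t + ang g g' i)) ≠
            ft G r g g' (z' + ((1 : ℝ) : ℂ) * cis (t + ang g g' i))}) :=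
          (measure_mono hsub).trans ((measure_union_le _ _).trans
            (add_le_add le_rfl (measure_union_le _ _)))
      _ ≤ 0 + (ε / 3 + 2 * (ε / 3)) := by
          refine add_le_add hnull.le (add_le_add hz1 (hrot.trans ?_))
          gcongr
      _ = ε := by
          rw [zero_add, two_mul, ← add_assoc]
          exact ENNReal.add_thirds ε
  have h1 := key true
  have h2 := key false
  have h3 : ∀ᵐ t ∂nu, ft G r g g' (z + (rad r i : ℂ) * cis t) ≠
      ft G r g g' (z + ((1 : ℝ) : ℂ) * cis (t + ang g g' i)) := by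
    filter_upwards [measure_eq_zero_iff_ae_notMem.1 h1, measure_eq_zero_iff_ae_notMem.1 h2] with t b1 b2 heq
    have b1' : ¬ (ft G r g g' (z + (rad r i : ℂ) * cis t) = true ∧
      ft G r g g' (z + ((1 : ℝ) : ℂ) * cis (t + ang g g' i)) = true) := b1
    have b2' : ¬ (ft G r g g' (z + (rad r i : ℂ) * cis t) = false ∧
      ft G r g g' (z + ((1 : ℝ) : ℂ) * cis (t + ang g g' i)) = false) := b2
    rw [heq] at b1' b2'
    cases h : ft G r g g' (z + ((1 : ℝ) : ℂ) * cis (t + ang g g' i))
    · exact b2' ⟨h, h⟩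
    · exact b1' ⟨h, h⟩
  refine ae_of_nu (fun t => ?_) h3
  rw [cis_add_two_pi, show t + 2 * Real.pi + ang g g' i = t + ang g g' i + 2 * Real.pi by ring,
    cis_add_two_pi]

end SmallAux

open SmallAux in
theorem AData.impossible {G : ℂ → Bool} {r g g' : ℝ} (D : AData G r g g') : False := by
  have hc := continuous_cis
  set S : Bool → Set ℂ := fun c => {w | ft G r g g' w = c ∧ RelGood G r g g' w} with hS
  have hdense : Dense {w : ℂ | RelGood G r g g' w} := Measure.dense_of_ae (ae_relGood D)
  have hcov : (univ : Set ℂ) ⊆ closure (S true) ∪ closure (S false) := by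
    rw [← closure_union]
    have e : S true ∪ S false = {w : ℂ | RelGood G r g g' w} := by
      ext w
      constructor
      · rintro (h | h)
        · exact h.2
        · exact h.2
      · intro h
        cases hw : ft G r g g' w
        · exact Or.inr ⟨hw, h⟩
        · exact Or.inl ⟨hw, h⟩
    rw [e, hdense.closure_eq]
  -- a colour which fills everything is impossible
  have hne : ∀ c : Bool, (S c).Nonempty := by
    intro c
    by_contra hemp
    rw [not_nonempty_iff_eq_empty] at hemp
    have hall : ∀ᵐ w : ℂ, ft G r g g' w = !c := by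
      filter_upwards [ae_relGood D] with w hw
      by_contra hcon
      have hwc : ft G r g g' w = c := by
        cases c <;> simpa using hcon
      have : w ∈ S c := ⟨hwc, hw⟩
      rw [hemp] at this
      exact this
    obtain ⟨w, hw0, hw1, hw2, hw3⟩ := (hall.and ((ae_relGood D).and
      ((ae_circ hall (rad r 0) 0).and (ae_circ hall 1 (ang g g' 0))))).exists
    have hfalse : ∀ᵐ β ∂nu, False := by
      filter_upwards [hw1 0, hw2, hw3] with β b1 b2 b3
      rw [add_zero] at b2
      exact b1 ⟨by rw [b2, hw0], by rw [b3, hw0]⟩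
    rw [ae_iff] at hfalse
    simp only [not_false_eq_true, Set.ofPred_true] at hfalse
    unfold nu at hfalse
    rw [Measure.restrict_apply_univ, Real.volume_Ioc] at hfalse
    rw [ENNReal.ofReal_eq_zero] at hfalse
    linarith [Real.pi_pos]
  obtain ⟨z, -, hz1, hz2⟩ := isPreconnected_closed_iff.1 (isPreconnected_univ (α := ℂ))
    (closure (S true)) (closure (S false)) isClosed_closure isClosed_closure hcov
    (by
      obtain ⟨w, hw⟩ := hne true
      exact ⟨w, mem_univ _, subset_closure hw⟩)
    (by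
      obtain ⟨w, hw⟩ := hne false
      exact ⟨w, mem_univ _, subset_closure hw⟩)
  have hz : ∀ c : Bool, z ∈ closure {w | ft G r g g' w = c ∧ RelGood G r g g' w} := by
    intro c
    cases c
    · exact hz2
    · exact hz1
  have k0 := relAt D hz 0
  have k1 := relAt D hz 1
  have k2 := relAt D hz 2
  have k3 := relAt D hz 3
  simp only [rad, ang, Matrix.cons_val_zero, Matrix.cons_val_one, Matrix.cons_val] at k0 k1 k2 k3
  refine type0 (F := fun t => ft G r g g' (z + ((1 : ℝ) : ℂ) * cis t))
    (H := fun t => ft G r g g' (z + (r : ℂ) * cis t))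
    (r := r) (g := g) (g' := g') ?_ ?_ D.r1 D.hg D.hg' D.g0 D.gg D.g2 k0 k1 k2 k3
  · have h1 : MeasurableSet {y : ℂ | 0 < mm G r g g' false y} :=
      measurableSet_lt measurable_const (measurable_mm D.hG false)
    have h2 := h1.preimage (by fun_prop : Continuous fun t : ℝ => z + ((1 : ℝ) : ℂ) * cis t).measurable
    have h3 : {t : ℝ | ft G r g g' (z + ((1 : ℝ) : ℂ) * cis t) = true} =
        (fun t : ℝ => z + ((1 : ℝ) : ℂ) * cis t) ⁻¹' {y : ℂ | 0 < mm G r g g' false y} := by
      ext t
      exact ft_true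
    rw [h3]
    exact h2.nullMeasurableSet
  · intro t
    rw [cis_add_two_pi]

/-- **§11.** -/
theorem adm_small {φ : ℂ → ℝ} {r : ℝ} (h : Adm φ r) (h1 : 1 < r) (h2 : r < 2) : False := by
  classical
  have hr0 : 0 < r := by linarith
  set g : ℝ := Real.arccos (r / 2) with hgdef
  set g' : ℝ := Real.arccos (1 / (2 * r)) with hgdef'
  have hcg : Real.cos g = r / 2 := Real.cos_arccos (by linarith) (by linarith)
  have hcg' : Real.cos g' = 1 / (2 * r) := by
    apply Real.cos_arccos
    · have : 0 < 1 / (2 * r) := by positivity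
      linarith
    · rw [div_le_one (by positivity)]; linarith
  have hrg' : r * Real.cos g' = 1 / 2 := by rw [hcg']; field_simp
  have hg0 : 0 < g := by rw [hgdef, Real.arccos_pos]; linarith
  have hg'2 : g' < Real.pi / 2 := by rw [hgdef', Real.arccos_lt_pi_div_two]; positivity
  have hgg : g < g' := by
    rw [hgdef, hgdef']
    apply Real.strictAntiOn_arccos
    · constructor
      · have : 0 < 1 / (2 * r) := by positivity
        linarith
      · rw [div_le_one (by positivity)]; linarith
    · constructor <;> linarith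
    · rw [div_lt_div_iff₀ (by positivity) (by norm_num)]
      nlinarith
  refine AData.impossible (G := fun w => decide (0 < φ w)) (r := r) (g := g) (g' := g')
    ⟨?_, h1, hcg, hcg', hg0, hgg, hg'2, ?_⟩
  · have hm : MeasurableSet {w | 0 < φ w} := measurableSet_lt measurable_const h.meas
    have e : (fun w => decide (0 < φ w)) = fun w => if w ∈ {w | 0 < φ w} then true else false := by
      funext w
      by_cases hw : 0 < φ w
      · simp [hw]
      · simp [hw]
    rw [e]
    exact Measurable.ite hm measurable_const measurable_const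
  intro i
  have hn1 : ∀ a : ℝ, 0 < a → ‖(a : ℂ)‖ = a := fun a ha => by
    rw [Complex.norm_real, Real.norm_of_nonneg ha.le]
  have hsub : ∀ a t : ℝ, a ^ 2 + 1 - 2 * a * Real.cos t = ‖(a : ℂ) - cis t‖ ^ 2 := by
    intro a t
    rw [← Complex.normSq_eq_norm_sq, Complex.normSq_apply]
    simp only [Complex.sub_re, Complex.sub_im, cis_re, cis_im, Complex.ofReal_re, Complex.ofReal_im]
    have := Real.sin_sq_add_cos_sq t
    nlinarith [this]
  have hrel : Rel φ (rad r i : ℂ) (cis (ang g g' i)) := by
    apply h.rel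
    · rw [hn1 _ (rad_pos h1 i)]
      fin_cases i <;> simp [rad]
    · rw [norm_cis]
      exact Or.inl rfl
    · have e := hsub (rad r i) (ang g g' i)
      have hsq : ∀ c : ℝ, 0 ≤ c → ‖((rad r i : ℝ) : ℂ) - cis (ang g g' i)‖ ^ 2 = c ^ 2 →
          ‖((rad r i : ℝ) : ℂ) - cis (ang g g' i)‖ = c := fun c hc h =>
        (pow_left_inj₀ (norm_nonneg _) hc two_ne_zero).1 h
      have hcases : ‖((rad r i : ℝ) : ℂ) - cis (ang g g' i)‖ ^ 2 = 1 ^ 2 ∨
          ‖((rad r i : ℝ) : ℂ) - cis (ang g g' i)‖ ^ 2 = r ^ 2 := by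
        rw [← e]
        fin_cases i
        · left
          simp only [rad, ang, Fin.zero_eta, Matrix.cons_val_zero]
          rw [Real.cos_pi_div_three]
          norm_num
        · left
          simp only [rad, ang, Fin.mk_one, Matrix.cons_val_one, Matrix.cons_val_zero]
          rw [hcg]
          ring
        · left
          simp only [rad, ang, Fin.reduceFinMk, Matrix.cons_val]
          rw [Real.cos_neg, hcg]
          ring
        · right
          simp only [rad, ang, Fin.reduceFinMk, Matrix.cons_val]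
          linear_combination (-2) * hrg'
      rcases hcases with hh | hh
      · exact Or.inl (hsq 1 zero_le_one hh)
      · exact Or.inr (hsq r hr0.le hh)
  unfold Rel at hrel
  filter_upwards [hrel] with y hy
  filter_upwards [hy] with β hβ hcon
  have e : cis (ang g g' i) * cis β = ((1 : ℝ) : ℂ) * cis (β + ang g g' i) := by
    rw [cis_add, Complex.ofReal_one, one_mul, mul_comm]
  rw [e] at hβ
  obtain ⟨c1, c2⟩ := hcon
  rw [decide_eq_decide] at c1 c2
  by_cases hy0 : 0 < φ y
  · have p1 := c1.2 hy0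
    have p2 := c2.2 hy0
    have q1 := mul_pos hy0 p1
    have q2 := mul_pos hy0 p2
    have q3 := mul_pos p1 p2
    linarith
  · have p1 : φ (y + (rad r i : ℂ) * cis β) ≤ 0 := not_lt.1 fun h => hy0 (c1.1 h)
    have p2 : φ (y + ((1 : ℝ) : ℂ) * cis (β + ang g g' i)) ≤ 0 := not_lt.1 fun h => hy0 (c2.1 h)
    have p0 := not_lt.1 hy0
    have q1 := mul_nonneg_of_nonpos_of_nonpos p0 p1
    have q2 := mul_nonneg_of_nonpos_of_nonpos p0 p2
    have q3 := mul_nonneg_of_nonpos_of_nonpos p1 p2
    linarith

end Pool.Agent.Lib.P3852H
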