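import Mathlib
import Pool.Agent.Lib.P3852H.Crum
import Pool.Agent.Lib.P3852H.Ext
import Pool.Agent.Lib.P3852H.MeanExist
import Pool.Agent.Lib.P3852H.Small
import Pool.Agent.Lib.P3852H.Large

/-!
# No 2-colouring of the plane avoids two sizes of equilateral triangles (assembly)
-/

set_option autoImplicit false

namespace Pool.Agent.Lib.P3852H

open MeasureTheory Pool.Agent.Lib.P3852e9

theorem no_two (f : ℂ → Bool) {r : ℝ} (h1 : 1 < r) (ha : AvTri f 1 1 1) (hr : AvTri f r r r) :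
    False := by
  have hr0 : 0 < r := by linarith
  obtain ⟨F, hFc, hrF, hF⟩ := exists_field r
  have hFm : Countable (Multiplicative F) := hFc
  obtain ⟨M1, hM1⟩ := exists_isMean (Multiplicative F)
  have hGc : Countable (Gam F) := by
    have hinj : Function.Injective (gv : Gam F → F) := by
      intro u v huv
      exact Subtype.ext (Units.ext huv)
    exact hinj.countable
  obtain ⟨M2, hM2⟩ := exists_isMean (Gam F)
  obtain ⟨P, c, hP, hcov, hrad, hpd, hc0, hρ⟩ := exists_proc F hM1 hM2 f hF.cis_mem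
  obtain ⟨c1, hpd1, hrad1, heq, hle, hcont⟩ := crum hF hpd hrad
  obtain ⟨ct, hctc, hct1, hct⟩ := exists_ext hF hpd1 hrad1 (hle.trans hc0.le) hcont
  have hnr : ‖(r : ℂ)‖ = r := by rw [Complex.norm_real, Real.norm_of_nonneg hr0.le]
  have v1 : c 1 = -1 / 3 := hρ 1 (by simpa using ha)
  have vr : c ⟨(r : ℂ), hrF⟩ = -1 / 3 := hρ ⟨(r : ℂ), hrF⟩ (by
    change AvTri f ‖(r : ℂ)‖ ‖(r : ℂ)‖ ‖(r : ℂ)‖
    rw [hnr]
    exact hr)
  have hr0' : (⟨(r : ℂ), hrF⟩ : F) ≠ 0 := by
    intro h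
    have h2 : (r : ℂ) = 0 := congrArg Subtype.val h
    rw [Complex.ofReal_eq_zero] at h2
    linarith
  obtain ⟨φ, hφ⟩ := exists_adm F hF.I_mem P (XX F) (XX_meas F) (XX_abs F) ct hctc hct1
    (by
      intro x y hxy
      rw [hcov, ← heq _ (sub_ne_zero.2 hxy)]
      refine (hct (x - y) ((x : ℂ) - y) ?_).symm
      push_cast
      rfl)
    (r := r) hr0
    (by
      intro z hz
      rw [hct 1 z (by rw [hz]; simp), heq 1 one_ne_zero, v1])
    (by
      intro z hz
      rw [hct ⟨(r : ℂ), hrF⟩ z (by rw [hz]; exact hnr.symm), heq _ hr0', vr])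
  rcases lt_or_ge r 2 with h | h
  · exact adm_small hφ h1 h
  · exact adm_large hφ h

end Pool.Agent.Lib.P3852H
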